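import Pool.Agent.Helper79.LE.Bnd

/-!
Final form of the subexponential count.
-/

open Finset Filter

namespace Pool.Agent.Helper79.LC

/-- All integer polynomials of degree at most `n` and Mahler measure at most `T`. -/
def famT (n : ℕ) (T : ℝ) : Set (Polynomial ℤ) := {f | f.natDegree ≤ n ∧ MM f ≤ T}

lemma famT_le (n : ℕ) {T : ℝ} (hT : 0 ≤ T) : (famT n T).ncard ≤ (famZ n T).ncard + 1 := by
  have h1 : famT n T ⊆ insert 0 (famZ n T) := by
    rintro f ⟨h1, h2⟩
    by_cases h : f = 0
    · exact Or.inl h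
    · exact Or.inr ⟨h, h1, h2⟩
  exact (Set.ncard_le_ncard h1 ((finite_famZ n hT).insert 0)).trans (Set.ncard_insert_le _ _)

theorem count_all : ∃ C : ℝ, 0 < C ∧ ∀ (n : ℕ) (T : ℝ), 3 ≤ n → 1 ≤ T →
    Real.log T ≤ √(Real.log n) →
    ((famT n T).ncard : ℝ) ≤ Real.exp (C * (1 + Real.log T) * n / Real.log (Real.log n)) := by
  obtain ⟨C, hC, h⟩ := gen_large
  obtain ⟨N, hN⟩ := eventually_atTop.mp h
  set M : ℕ := (famT N (Real.exp √(Real.log N))).ncard with hM
  have hlogM : 0 ≤ Real.log (M + 1) := Real.log_nonneg (by simp)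
  refine ⟨C + 1 + Real.log (M + 1), by positivity, ?_⟩
  intro n T hn hT hTL
  have hT0 : 0 < T := by linarith
  have hn0 : (0 : ℝ) < n := by positivity
  have hn3 : (3 : ℝ) ≤ n := by exact_mod_cast hn
  have hlogT : 0 ≤ Real.log T := Real.log_nonneg hT
  have hL1 : 1 < Real.log n := by
    have h1 := Real.log_le_log (by norm_num) hn3
    have h2 : 1 < Real.log 3 := by
      rw [Real.lt_log_iff_exp_lt (by norm_num)]
      have := Real.exp_one_lt_d9
      linarith
    linarith
  have hL0 : 0 < Real.log n := by linarith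
  have hll0 : 0 < Real.log (Real.log n) := Real.log_pos hL1
  have hq : 1 ≤ n / Real.log (Real.log n) := by
    rw [le_div_iff₀ hll0, one_mul]
    have h1 := Real.log_le_sub_one_of_pos hL0
    have h2 := Real.log_le_sub_one_of_pos hn0
    linarith
  set Q : ℝ := (1 + Real.log T) * (n / Real.log (Real.log n)) with hQ
  have hQ1 : 1 ≤ Q := by
    rw [hQ]
    have : 0 ≤ Real.log T * (n / Real.log (Real.log n)) := by positivity
    linarith
  have hform : (C + 1 + Real.log (M + 1)) * (1 + Real.log T) * n / Real.log (Real.log n) =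
      (C + 1 + Real.log (M + 1)) * Q := by rw [hQ]; ring
  rw [hform]
  rcases lt_or_ge n N with hnN | hnN
  · have h1 : (famT n T).ncard ≤ M := by
      rw [hM]
      apply Set.ncard_le_ncard _ (finite_MM N _ (Real.exp_pos _).le)
      rintro f ⟨h1, h2⟩
      refine ⟨by omega, h2.trans ?_⟩
      rw [← Real.exp_log hT0]
      apply Real.exp_le_exp.mpr
      refine hTL.trans (Real.sqrt_le_sqrt ?_)
      exact Real.log_le_log hn0 (by exact_mod_cast hnN.le)
    have h2 : ((famT n T).ncard : ℝ) ≤ M + 1 := by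
      have : ((famT n T).ncard : ℝ) ≤ M := by exact_mod_cast h1
      linarith
    refine h2.trans ?_
    rw [← Real.log_le_iff_le_exp (by positivity)]
    have h3 : Real.log (M + 1) * 1 ≤ Real.log (M + 1) * Q := by gcongr
    have h4 : 0 ≤ C * Q := by positivity
    nlinarith
  · have h1 := hN n hnN T hT hTL
    have h2 : ((famT n T).ncard : ℝ) ≤ (famZ n T).ncard + 1 := by
      exact_mod_cast famT_le n hT0.le
    have h3 : C * (1 + Real.log T) * n / Real.log (Real.log n) = C * Q := by rw [hQ]; ring
    rw [h3] at h1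
    have h4 : 1 ≤ Real.exp (C * Q) := Real.one_le_exp (by positivity)
    have h5 : (2 : ℝ) ≤ Real.exp Q := by
      have := Real.add_one_le_exp Q; linarith
    calc ((famT n T).ncard : ℝ) ≤ (famZ n T).ncard + 1 := h2
      _ ≤ Real.exp (C * Q) + Real.exp (C * Q) := by gcongr
      _ = 2 * Real.exp (C * Q) := by ring
      _ ≤ Real.exp Q * Real.exp (C * Q) := by gcongr
      _ = Real.exp ((C + 1) * Q) := by rw [← Real.exp_add]; ring_nf
      _ ≤ _ := by
          apply Real.exp_le_exp.mpr
          have : 0 ≤ Real.log (M + 1) * Q := by positivity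
          linarith

lemma finite_famT (n : ℕ) {T : ℝ} (hT : 0 ≤ T) : (famT n T).Finite := finite_MM n T hT

lemma famT_pos (n : ℕ) {T : ℝ} (hT : 0 ≤ T) : 0 < (famT n T).ncard := by
  rw [Set.ncard_pos (finite_famT n hT)]
  refine ⟨0, ?_, ?_⟩
  · simp
  · rw [MM]; simpa using hT

/-- For fixed `T` the count is subexponential. -/
theorem count_lim (T : ℝ) (hT : 1 ≤ T) :
    Tendsto (fun n : ℕ => Real.log (famT n T).ncard / n) atTop (nhds 0) := by
  obtain ⟨C, hC, h⟩ := count_all
  have hlogT : 0 ≤ Real.log T := Real.log_nonneg hT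
  have h1 : Tendsto (fun n : ℕ => C * (1 + Real.log T) / Real.log (Real.log n)) atTop (nhds 0) :=
    Tendsto.div_atTop tendsto_const_nhds tend_loglog
  refine squeeze_zero' ?_ ?_ h1
  · filter_upwards with n
    have h2 : 1 ≤ (famT n T).ncard := famT_pos n (by linarith)
    have h3 : (1 : ℝ) ≤ (famT n T).ncard := by exact_mod_cast h2
    have := Real.log_nonneg h3
    positivity
  · have hTlim : ∀ᶠ n : ℕ in atTop, Real.log T ≤ √(Real.log n) := by
      have : Tendsto (fun n : ℕ => √(Real.log n)) atTop atTop :=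
        Real.tendsto_sqrt_atTop.comp tend_log
      exact this.eventually (eventually_ge_atTop _)
    filter_upwards [hTlim, eventually_ge_atTop 3] with n hn hn3
    have hn0 : (0 : ℝ) < n := by positivity
    have h2 := h n T hn3 hT hn
    have h3 : (0 : ℝ) < (famT n T).ncard := by exact_mod_cast famT_pos n (by linarith)
    rw [← Real.log_le_iff_le_exp h3] at h2
    rw [div_le_iff₀ hn0]
    refine h2.trans (le_of_eq ?_)
    ring

end Pool.Agent.Helper79.LC
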