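import Pool.Agent.Helper79.LD.Asy

/-!
Choice of parameters for large degree.
-/

open Filter Topology Asymptotics

namespace Pool.Agent.Helper79.LC

lemma ev_x : ∀ᶠ x : ℝ in atTop, ∃ a b : ℕ, ∃ U : ℝ,
    U ≤ x ∧ 8 * √x + U + 2 ≤ x ∧ 64 * Real.exp (2 * U) * Real.exp (12 * √x) * x ^ 5 ≤
      Real.exp (x / 2) ∧
    153600 * Real.exp (20 * √x) * x ^ 7 * Real.exp (2 * U) ≤ Real.exp x ∧
    2 * √x ≤ 2 ^ b ∧ (2 : ℝ) ^ (b + a) ≤ U ∧ 6 ≤ a ∧ (a : ℝ) ≤ Real.log x ∧
    Real.log x ≤ 16 * a ∧ Real.log x ≤ 2 * √x ∧ 48 ≤ Real.log x := by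
  filter_upwards [ev_pow_exp 64 5 (show (0 : ℝ) < 1 / 4 by norm_num),
    ev_pow_exp 153600 7 (show (0 : ℝ) < 1 / 4 by norm_num),
    eventually_ge_atTop 1, Real.tendsto_log_atTop.eventually (eventually_ge_atTop 48)]
    with x h5 h7 hx1 hy
  have hx0 : 0 < x := by linarith
  set y : ℝ := Real.log x with hydef
  have hxy : Real.exp y = x := Real.exp_log hx0
  set a : ℕ := ⌊y / 8⌋₊ with ha
  set b : ℕ := ⌈Real.logb 2 (2 * √x)⌉₊ with hb
  set U : ℝ := Real.exp (0.75 * y) with hU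
  have hsx : √x = Real.exp (y / 2) := by
    rw [hydef, ← Real.log_sqrt hx0.le, Real.exp_log (Real.sqrt_pos.mpr hx0)]
  have hsx1 : 1 ≤ √x := by rw [hsx]; exact Real.one_le_exp (by linarith)
  have h100 : (100 : ℝ) ≤ Real.exp (y / 4) := by
    have h1 : Real.exp 12 ≤ Real.exp (y / 4) := Real.exp_le_exp.mpr (by linarith)
    have h2 : (2.7 : ℝ) ^ 12 ≤ Real.exp 12 := by
      have h3 := Real.exp_one_gt_d9
      have h4 : Real.exp 12 = Real.exp 1 ^ 12 := by rw [← Real.exp_nat_mul]; norm_num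
      rw [h4]; gcongr; linarith
    have h3 : (100 : ℝ) ≤ 2.7 ^ 12 := by norm_num
    linarith
  have hU1 : 100 * U ≤ x := by
    calc 100 * U ≤ Real.exp (y / 4) * Real.exp (0.75 * y) := by gcongr
      _ = x := by rw [← Real.exp_add, ← hxy]; congr 1; ring
  have hsU : √x ≤ U := by
    rw [hsx, hU]; exact Real.exp_le_exp.mpr (by linarith)
  have hU2 : 100 ≤ U := h100.trans (Real.exp_le_exp.mpr (by linarith))
  have hx2 : 1000 ≤ x := by linarith
  have hl2 := Real.log_two_gt_d9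
  have hl2' := Real.log_two_lt_d9
  have hb1 : 2 * √x ≤ 2 ^ b := by
    have h1 := Nat.le_ceil (Real.logb 2 (2 * √x))
    rw [← hb, Real.logb_le_iff_le_rpow (by norm_num) (by positivity), Real.rpow_natCast] at h1
    exact h1
  have hb2 : (2 : ℝ) ^ b ≤ 4 * √x := by
    have h0 : 0 ≤ Real.logb 2 (2 * √x) := Real.logb_nonneg (by norm_num) (by linarith)
    have h1 := Nat.ceil_lt_add_one h0
    rw [← hb] at h1
    have h2 : (2 : ℝ) ^ (b : ℝ) ≤ 2 ^ (Real.logb 2 (2 * √x) + 1) :=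
      Real.rpow_le_rpow_of_exponent_le (by norm_num) h1.le
    rw [Real.rpow_natCast, Real.rpow_add (by norm_num),
      Real.rpow_logb (by norm_num) (by norm_num) (by positivity), Real.rpow_one] at h2
    linarith
  have ha1 : (a : ℝ) ≤ y / 8 := Nat.floor_le (by linarith)
  have ha2 : y / 8 < a + 1 := Nat.lt_floor_add_one _
  have ha3 : (2 : ℝ) ^ a ≤ Real.exp (0.1 * y) := by
    have : (2 : ℝ) ^ a = Real.exp (a * Real.log 2) := by
      rw [Real.exp_nat_mul, Real.exp_log (by norm_num)]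
    rw [this]
    apply Real.exp_le_exp.mpr
    nlinarith
  refine ⟨a, b, U, by linarith, by linarith, ?_, ?_, hb1, ?_, ?_, by linarith, by linarith, ?_, hy⟩
  · calc 64 * Real.exp (2 * U) * Real.exp (12 * √x) * x ^ 5
        = Real.exp (2 * U) * Real.exp (12 * √x) * (64 * x ^ 5) := by ring
      _ ≤ Real.exp (2 * U) * Real.exp (12 * √x) * Real.exp (1 / 4 * x) := by gcongr
      _ = Real.exp (2 * U + 12 * √x + 1 / 4 * x) := by rw [← Real.exp_add, ← Real.exp_add]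
      _ ≤ _ := by
          apply Real.exp_le_exp.mpr
          linarith
  · calc 153600 * Real.exp (20 * √x) * x ^ 7 * Real.exp (2 * U)
        = Real.exp (2 * U) * Real.exp (20 * √x) * (153600 * x ^ 7) := by ring
      _ ≤ Real.exp (2 * U) * Real.exp (20 * √x) * Real.exp (1 / 4 * x) := by gcongr
      _ = Real.exp (2 * U + 20 * √x + 1 / 4 * x) := by rw [← Real.exp_add, ← Real.exp_add]
      _ ≤ _ := by
          apply Real.exp_le_exp.mpr
          linarith
  · rw [pow_add]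
    have h4 : (4 : ℝ) ≤ Real.exp 2 := by
      have h3 := Real.exp_one_gt_d9
      have h4 : Real.exp 2 = Real.exp 1 * Real.exp 1 := by rw [← Real.exp_add]; norm_num
      rw [h4]; nlinarith
    calc (2 : ℝ) ^ b * 2 ^ a ≤ (4 * √x) * Real.exp (0.1 * y) := by gcongr
      _ ≤ (Real.exp 2 * Real.exp (y / 2)) * Real.exp (0.1 * y) := by rw [hsx]; gcongr
      _ = Real.exp (2 + y / 2 + 0.1 * y) := by rw [← Real.exp_add, ← Real.exp_add]
      _ ≤ _ := by
          apply Real.exp_le_exp.mpr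
          linarith
  · apply Nat.le_floor
    push_cast; linarith
  · have h1 := Real.add_one_le_exp (y / 2)
    rw [← hsx] at h1
    linarith

lemma ev_n : ∀ᶠ n : ℕ in atTop, ∃ a b : ℕ, ∃ U : ℝ,
    U ≤ Real.log n ∧ 8 * √(Real.log n) + U + 2 ≤ Real.log n ∧
    64 * Real.exp (2 * U) * Real.exp (12 * √(Real.log n)) * Real.log n ^ 5 ≤ √(n : ℝ) ∧
    153600 * Real.exp (20 * √(Real.log n)) * Real.log n ^ 7 * Real.exp (2 * U) ≤ (n : ℝ) ∧
    2 * √(Real.log n) ≤ 2 ^ b ∧ (2 : ℝ) ^ (b + a) ≤ U ∧ 6 ≤ a ∧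
    (a : ℝ) ≤ Real.log (Real.log n) ∧
    Real.log (Real.log n) ≤ 16 * a ∧ Real.log (Real.log n) ≤ 2 * √(Real.log n) ∧
    48 ≤ Real.log (Real.log n) := by
  filter_upwards [tend_log.eventually ev_x, eventually_ge_atTop 1] with n hn hn1
  have hn0 : (0 : ℝ) < n := by exact_mod_cast hn1
  obtain ⟨a, b, U, h1, h2, h3, h4, h5⟩ := hn
  refine ⟨a, b, U, h1, h2, ?_, ?_, h5⟩
  · refine h3.trans (le_of_eq ?_)
    rw [← Real.log_sqrt hn0.le, Real.exp_log (Real.sqrt_pos.mpr hn0)]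
  · refine h4.trans (le_of_eq ?_)
    rw [Real.exp_log hn0]

end Pool.Agent.Helper79.LC
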