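import Pool.Agent.Helper79.LE.Cou

/-!
The number of all integer polynomials of bounded Mahler measure is subexponential.
-/

open Finset Filter

namespace Pool.Agent.Helper79.LC

lemma crude_famQ (d : ℕ) {T : ℝ} (hT : 1 ≤ T) :
    ((famQ d T).ncard : ℝ) ≤ Real.exp (2 * ((d : ℝ) + 1) ^ 2 * (1 + Real.log T)) := by
  have hT0 : 0 < T := by linarith
  have hlogT : 0 ≤ Real.log T := Real.log_nonneg hT
  obtain ⟨B, hB⟩ : ∃ B : NNReal, (B : ℝ) = T := ⟨⟨T, hT0.le⟩, rfl⟩
  have h1 := Polynomial.card_mahlerMeasure_le_prod d B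
  have h2 : (famQ d T).ncard ≤
      {p : Polynomial ℤ | p.natDegree ≤ d ∧ (p.map (Int.castRingHom ℂ)).mahlerMeasure ≤
        (B : ℝ)}.ncard := by
    apply Set.ncard_le_ncard
    · rintro f ⟨_, h3, h4⟩
      refine ⟨h3.le, ?_⟩
      rw [hB]; exact h4
    · exact Polynomial.finite_mahlerMeasure_le d B
  have h3 : ((famQ d T).ncard : ℝ) ≤
      ((∏ i : Fin (d + 1), (2 * ⌊((d.choose i : ℕ) : NNReal) * B⌋₊ + 1) : ℕ) : ℝ) := by
    exact_mod_cast h2.trans h1
  refine h3.trans ?_
  push_cast
  have h4 : ∀ i ∈ (univ : Finset (Fin (d + 1))),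
      2 * ((⌊((d.choose i : ℕ) : NNReal) * B⌋₊ : ℕ) : ℝ) + 1 ≤
      Real.exp (2 + d + Real.log T) := by
    intro i _
    have h5 : ((⌊((d.choose i : ℕ) : NNReal) * B⌋₊ : ℕ) : ℝ) ≤ (d.choose i : ℝ) * T := by
      have := Nat.floor_le (a := ((d.choose i : ℕ) : NNReal) * B) (by positivity)
      have h6 := NNReal.coe_le_coe.mpr this
      rw [NNReal.coe_natCast, NNReal.coe_mul, NNReal.coe_natCast, hB] at h6
      exact h6
    have h7 : (d.choose i : ℝ) ≤ 2 ^ d := by
      exact_mod_cast Nat.choose_le_two_pow d i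
    have h8 : (2 : ℝ) ^ d ≤ Real.exp d := by
      have h9 : (2 : ℝ) ≤ Real.exp 1 := by
        have := Real.add_one_le_exp (1 : ℝ); linarith
      calc (2 : ℝ) ^ d ≤ Real.exp 1 ^ d := by gcongr
        _ = Real.exp d := by rw [← Real.exp_nat_mul, mul_one]
    have h9 : (3 : ℝ) ≤ Real.exp 2 := by
      have := Real.add_one_le_exp (2 : ℝ); linarith
    have h10 : 1 ≤ Real.exp d * T := by
      have : 1 ≤ Real.exp d := Real.one_le_exp (by positivity)
      nlinarith
    calc 2 * ((⌊((d.choose i : ℕ) : NNReal) * B⌋₊ : ℕ) : ℝ) + 1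
        ≤ 2 * (Real.exp d * T) + 1 := by
          gcongr
          exact h5.trans (by gcongr; exact h7.trans h8)
      _ ≤ 3 * (Real.exp d * T) := by linarith
      _ ≤ Real.exp 2 * (Real.exp d * T) := by gcongr
      _ = _ := by rw [Real.exp_add, Real.exp_add, Real.exp_log hT0]; ring
  have h5 : ∏ i : Fin (d + 1),
      (2 * ((⌊((d.choose i : ℕ) : NNReal) * B⌋₊ : ℕ) : ℝ) + 1) ≤
      ∏ i : Fin (d + 1), Real.exp (2 + d + Real.log T) :=
    Finset.prod_le_prod (fun _ _ => by positivity) h4
  refine h5.trans ?_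
  rw [prod_const, card_univ, Fintype.card_fin, ← Real.exp_nat_mul]
  apply Real.exp_le_exp.mpr
  push_cast
  have h6 : 2 + (d : ℝ) + Real.log T ≤ 2 * ((d : ℝ) + 1) * (1 + Real.log T) := by
    have : 0 ≤ (d : ℝ) * Real.log T := by positivity
    nlinarith
  calc ((d : ℝ) + 1) * (2 + d + Real.log T) ≤ ((d : ℝ) + 1) * (2 * ((d : ℝ) + 1) * (1 + Real.log T)) := by
        gcongr
    _ = _ := by ring

lemma card_small {n : ℕ} (hn : 1 ≤ n) (D : Finset ℕ) (hD : ∑ d ∈ D, d ≤ n) :
    #D ≤ 2 * ⌈√(n : ℝ)⌉₊ + 1 := by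
  have hn0 : (0 : ℝ) < n := by exact_mod_cast hn
  set w : ℕ := ⌈√(n : ℝ)⌉₊ with hw
  have hw1 : √(n : ℝ) ≤ w := Nat.le_ceil _
  have hsn : √(n : ℝ) * √(n : ℝ) = n := Real.mul_self_sqrt hn0.le
  have hs0 : 0 < √(n : ℝ) := Real.sqrt_pos.mpr hn0
  have h1 : #(D.filter fun d => d ≤ w) ≤ w + 1 := by
    calc #(D.filter fun d => d ≤ w) ≤ #(range (w + 1)) := by
          apply card_le_card
          intro d hd
          have := (mem_filter.mp hd).2
          rw [mem_range]; omega
      _ = w + 1 := card_range _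
  have h2 : #(D.filter fun d => ¬ d ≤ w) * w ≤ n := by
    calc #(D.filter fun d => ¬ d ≤ w) * w = ∑ _d ∈ D.filter (fun d => ¬ d ≤ w), w := by
          rw [sum_const, smul_eq_mul]
      _ ≤ ∑ d ∈ D.filter (fun d => ¬ d ≤ w), d := by
          refine sum_le_sum fun d hd => ?_
          have := (mem_filter.mp hd).2
          omega
      _ ≤ ∑ d ∈ D, d := sum_le_sum_of_subset (filter_subset _ _)
      _ ≤ n := hD
  have h3 : #(D.filter fun d => ¬ d ≤ w) ≤ w := by
    by_contra h
    have h' := not_le.mp h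
    have h4 : (w + 1) * w ≤ n := (Nat.mul_le_mul_right w h').trans h2
    have h5 : (((w + 1) * w : ℕ) : ℝ) ≤ n := by exact_mod_cast h4
    push_cast at h5
    nlinarith
  have h4 := card_filter_add_card_filter_not (s := D) (fun d => d ≤ w)
  omega

theorem gen_large : ∃ C : ℝ, 0 < C ∧ ∀ᶠ n : ℕ in atTop, ∀ T : ℝ, 1 ≤ T →
    Real.log T ≤ √(Real.log n) →
    ((famZ n T).ncard : ℝ) ≤ Real.exp (C * (1 + Real.log T) * n / Real.log (Real.log n)) := by
  obtain ⟨C, hC, h⟩ := subq_large
  obtain ⟨N, hN⟩ := eventually_atTop.mp h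
  refine ⟨2 * C + 100, by positivity, ?_⟩
  filter_upwards [eventually_ge_atTop 3, eventually_ge_atTop (N ^ 4),
    tend_log.eventually (eventually_ge_atTop 1), tend_loglog.eventually (eventually_ge_atTop 3),
    tend_log.eventually (ev_pow_exp 1 2 (show (0 : ℝ) < 1 / 4 by norm_num))]
    with n hn hnN hL1 hll3 hexp T hT hTL
  set L : ℝ := Real.log n with hL
  set ll : ℝ := Real.log L with hll
  have hlogT : 0 ≤ Real.log T := Real.log_nonneg hT
  have hT0 : 0 < T := by linarith
  have hn0 : (0 : ℝ) < n := by positivity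
  have hn3 : (3 : ℝ) ≤ n := by exact_mod_cast hn
  have hL0 : 0 < L := by linarith
  have hll0 : 0 < ll := by linarith
  have hllL : ll ≤ L := (Real.log_le_sub_one_of_pos hL0).trans (by linarith)
  set q : ℝ := Real.exp (L / 4) with hq
  have hq0 : 0 < q := Real.exp_pos _
  have hq4 : q ^ 4 = n := by
    rw [hq, ← Real.exp_nat_mul]
    push_cast
    rw [show (4 : ℝ) * (L / 4) = L by ring, hL, Real.exp_log hn0]
  have hLq : L ^ 2 ≤ q := by
    rw [one_mul] at hexp
    rw [hq, show L / 4 = 1 / 4 * L by ring]; exact hexp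
  have hq1 : 1 ≤ q := (one_le_pow₀ hL1).trans hLq
  have hsq : √(n : ℝ) = q ^ 2 := by
    rw [← hq4, show q ^ 4 = (q ^ 2) ^ 2 by ring, Real.sqrt_sq (by positivity)]
  set y : ℕ := ⌈q⌉₊ with hy
  have hyq : q ≤ y := Nat.le_ceil _
  have hy2 : (y : ℝ) ≤ 2 * q := by
    have := Nat.ceil_lt_add_one hq0.le
    rw [← hy] at this
    linarith
  have hNy : N ≤ y := by
    have h1 : (N : ℝ) ^ 4 ≤ (y : ℝ) ^ 4 := by
      have h2 : (N : ℝ) ^ 4 ≤ n := by exact_mod_cast hnN
      rw [← hq4] at h2
      exact h2.trans (by gcongr)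
    have h2 : (N : ℝ) ≤ y := le_of_pow_le_pow_left₀ (by norm_num) (by positivity) h1
    exact_mod_cast h2
  -- the product bound
  have hW : ∀ D ⊆ Icc 1 n, ∑ d ∈ D, d ≤ n → ∏ d ∈ D, ((famQ d T).ncard : ℝ) ≤
      Real.exp ((2 * C + 16) * (1 + Real.log T) * n / ll) := by
    intro D hD hDn
    rw [← prod_filter_mul_prod_filter_not D (fun d => d < y)]
    have h1 : ∏ d ∈ D.filter (fun d => d < y), ((famQ d T).ncard : ℝ) ≤
        Real.exp (16 * (1 + Real.log T) * n / ll) := by
      calc ∏ d ∈ D.filter (fun d => d < y), ((famQ d T).ncard : ℝ)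
          ≤ ∏ d ∈ D.filter (fun d => d < y), Real.exp (2 * (y : ℝ) ^ 2 * (1 + Real.log T)) := by
            apply Finset.prod_le_prod
            · intros; positivity
            · intro d hd
              refine (crude_famQ d hT).trans (Real.exp_le_exp.mpr ?_)
              have h2 : (d : ℝ) + 1 ≤ y := by
                have := (mem_filter.mp hd).2
                exact_mod_cast this
              gcongr
        _ = Real.exp (#(D.filter fun d => d < y) * (2 * (y : ℝ) ^ 2 * (1 + Real.log T))) := by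
            rw [prod_const, ← Real.exp_nat_mul]
        _ ≤ _ := by
            apply Real.exp_le_exp.mpr
            have h2 : (#(D.filter fun d => d < y) : ℝ) ≤ y := by
              have h3 : #(D.filter fun d => d < y) ≤ #(range y) := by
                apply card_le_card
                intro d hd
                rw [mem_range]; exact (mem_filter.mp hd).2
              rw [card_range] at h3
              exact_mod_cast h3
            have h3 : (y : ℝ) ^ 3 * ll ≤ 8 * n := by
              calc (y : ℝ) ^ 3 * ll ≤ (2 * q) ^ 3 * q := by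
                    gcongr
                    calc ll ≤ L := hllL
                      _ ≤ L ^ 2 := by nlinarith
                      _ ≤ q := hLq
                _ = 8 * q ^ 4 := by ring
                _ = 8 * n := by rw [hq4]
            rw [le_div_iff₀ hll0]
            calc (#(D.filter fun d => d < y) : ℝ) * (2 * (y : ℝ) ^ 2 * (1 + Real.log T)) * ll
                ≤ (y : ℝ) * (2 * (y : ℝ) ^ 2 * (1 + Real.log T)) * ll := by gcongr
              _ = 2 * (1 + Real.log T) * ((y : ℝ) ^ 3 * ll) := by ring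
              _ ≤ 2 * (1 + Real.log T) * (8 * n) := by gcongr
              _ = _ := by ring
    have h2 : ∏ d ∈ D.filter (fun d => ¬ d < y), ((famQ d T).ncard : ℝ) ≤
        Real.exp (2 * C * (1 + Real.log T) * n / ll) := by
      calc ∏ d ∈ D.filter (fun d => ¬ d < y), ((famQ d T).ncard : ℝ)
          ≤ ∏ d ∈ D.filter (fun d => ¬ d < y), Real.exp (2 * C * (1 + Real.log T) / ll * d) := by
            apply Finset.prod_le_prod
            · intros; positivity
            · intro d hd
              have hdy : y ≤ d := by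
                have := (mem_filter.mp hd).2
                omega
              have hdy' : q ≤ d := by
                have : (y : ℝ) ≤ d := by exact_mod_cast hdy
                linarith
              have hd0 : (0 : ℝ) < d := by linarith
              have hlogd : L / 4 ≤ Real.log d := by
                have := Real.log_le_log hq0 hdy'
                rwa [hq, Real.log_exp] at this
              have hT' : Real.log T ≤ 2 * √(Real.log d) := by
                refine hTL.trans ?_
                have : √L ≤ √(4 * Real.log d) := Real.sqrt_le_sqrt (by linarith)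
                rwa [Real.sqrt_mul (by norm_num), show √(4 : ℝ) = 2 by
                  rw [show (4 : ℝ) = 2 ^ 2 by norm_num, Real.sqrt_sq (by norm_num)]] at this
              refine (hN d (hNy.trans hdy) T hT hT').trans (Real.exp_le_exp.mpr ?_)
              have hlld : ll / 2 ≤ Real.log (Real.log d) := by
                have h3 := Real.log_le_log (by positivity) hlogd
                rw [Real.log_div hL0.ne' (by norm_num), ← hll] at h3
                have h4 : Real.log 4 ≤ 1.4 := by
                  rw [show (4 : ℝ) = 2 ^ 2 by norm_num, Real.log_pow]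
                  have := Real.log_two_lt_d9
                  push_cast; linarith
                linarith
              have hlld0 : 0 < Real.log (Real.log d) := by linarith
              rw [div_le_iff₀ hlld0]
              have h5 : C * (1 + Real.log T) * d = 2 * C * (1 + Real.log T) / ll * d * (ll / 2) := by
                field_simp
              rw [h5]
              gcongr
        _ = Real.exp (∑ d ∈ D.filter (fun d => ¬ d < y), 2 * C * (1 + Real.log T) / ll * d) := by
            rw [Real.exp_sum]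
        _ ≤ _ := by
            apply Real.exp_le_exp.mpr
            rw [← mul_sum]
            have h3 : ∑ d ∈ D.filter (fun d => ¬ d < y), (d : ℝ) ≤ n := by
              have : ∑ d ∈ D.filter (fun d => ¬ d < y), d ≤ n :=
                (sum_le_sum_of_subset (filter_subset _ _)).trans hDn
              have h4 : ((∑ d ∈ D.filter (fun d => ¬ d < y), d : ℕ) : ℝ) ≤ n := Nat.cast_le.mpr this
              rw [Nat.cast_sum] at h4
              exact h4
            calc 2 * C * (1 + Real.log T) / ll * ∑ d ∈ D.filter (fun d => ¬ d < y), (d : ℝ)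
                ≤ 2 * C * (1 + Real.log T) / ll * n := by gcongr
              _ = _ := by ring
    have h0 : 0 ≤ ∏ d ∈ D.filter (fun d => ¬ d < y), ((famQ d T).ncard : ℝ) :=
      prod_nonneg fun _ _ => by positivity
    calc (∏ d ∈ D.filter (fun d => d < y), ((famQ d T).ncard : ℝ)) *
          ∏ d ∈ D.filter (fun d => ¬ d < y), ((famQ d T).ncard : ℝ)
        ≤ Real.exp (16 * (1 + Real.log T) * n / ll) * Real.exp (2 * C * (1 + Real.log T) * n / ll) := by
          gcongr
      _ = _ := by rw [← Real.exp_add]; congr 1; ring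
  have hmain := gen_count (n := n) (β := 2 * ⌈√(n : ℝ)⌉₊ + 1) hT
    (fun D hD hDn => card_small (by omega) D hDn) hW
  refine hmain.trans ?_
  have hqn : 1 ≤ n / ll := by
    rw [le_div_iff₀ hll0]
    have : (n : ℝ) = q ^ 4 := hq4.symm
    have h2 : q ≤ q ^ 4 := le_self_pow₀ hq1 (by norm_num)
    nlinarith
  have h1 : 2 * T + 1 ≤ Real.exp (3 * ((1 + Real.log T) * (n / ll))) := by
    have h3 : 2 * T + 1 ≤ Real.exp (2 + Real.log T) := by
      rw [Real.exp_add, Real.exp_log hT0]
      have h4 : (3 : ℝ) ≤ Real.exp 2 := by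
        have := Real.add_one_le_exp (2 : ℝ); linarith
      nlinarith
    refine h3.trans (Real.exp_le_exp.mpr ?_)
    calc 2 + Real.log T ≤ 3 * ((1 + Real.log T) * 1) := by linarith
      _ ≤ _ := by gcongr
  have h2 : (((n : ℝ) + 1) * (2 * n + 1)) ^ (2 * ⌈√(n : ℝ)⌉₊ + 1) ≤
      Real.exp (20 * (n / ll)) := by
    have h3 : ((n : ℝ) + 1) * (2 * n + 1) ≤ Real.exp (4 * L) := by
      have : Real.exp (4 * L) = (n : ℝ) ^ 4 := by
        rw [show (4 : ℝ) * L = ((4 : ℕ) : ℝ) * L by norm_num, Real.exp_nat_mul, hL,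
          Real.exp_log hn0]
      rw [this]
      have h4 : (n : ℝ) + 1 ≤ n ^ 2 := by nlinarith
      have h5 : 2 * (n : ℝ) + 1 ≤ n ^ 2 := by nlinarith
      calc ((n : ℝ) + 1) * (2 * n + 1) ≤ n ^ 2 * n ^ 2 := by gcongr
        _ = _ := by ring
    calc (((n : ℝ) + 1) * (2 * n + 1)) ^ (2 * ⌈√(n : ℝ)⌉₊ + 1)
        ≤ Real.exp (4 * L) ^ (2 * ⌈√(n : ℝ)⌉₊ + 1) := by gcongr
      _ = Real.exp ((2 * ⌈√(n : ℝ)⌉₊ + 1 : ℕ) * (4 * L)) := by rw [← Real.exp_nat_mul]
      _ ≤ _ := by
          apply Real.exp_le_exp.mpr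
          push_cast
          have h4 : (⌈√(n : ℝ)⌉₊ : ℝ) ≤ 2 * q ^ 2 := by
            have := Nat.ceil_lt_add_one (Real.sqrt_nonneg (n : ℝ))
            rw [hsq] at this ⊢
            have : 1 ≤ q ^ 2 := one_le_pow₀ hq1
            linarith
          have h5 : 2 * (⌈√(n : ℝ)⌉₊ : ℝ) + 1 ≤ 5 * q ^ 2 := by
            have : 1 ≤ q ^ 2 := one_le_pow₀ hq1
            linarith
          have h6 : 20 * (n / ll) = 20 * n / ll := by ring
          rw [h6, le_div_iff₀ hll0]
          calc (2 * (⌈√(n : ℝ)⌉₊ : ℝ) + 1) * (4 * L) * ll ≤ (5 * q ^ 2) * (4 * L) * L := by gcongr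
            _ = 20 * q ^ 2 * L ^ 2 := by ring
            _ ≤ 20 * q ^ 2 * q ^ 2 := by
                have h7 : L ^ 2 ≤ q ^ 2 := hLq.trans (by nlinarith)
                gcongr
            _ = 20 * q ^ 4 := by ring
            _ = 20 * n := by rw [hq4]
  calc (2 * T + 1) * (((n : ℝ) + 1) * (2 * n + 1)) ^ (2 * ⌈√(n : ℝ)⌉₊ + 1) *
        Real.exp ((2 * C + 16) * (1 + Real.log T) * n / ll)
      ≤ Real.exp (3 * ((1 + Real.log T) * (n / ll))) * Real.exp (20 * (n / ll)) *
        Real.exp ((2 * C + 16) * (1 + Real.log T) * n / ll) := by gcongr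
    _ = Real.exp (3 * ((1 + Real.log T) * (n / ll)) + 20 * (n / ll) +
        (2 * C + 16) * (1 + Real.log T) * n / ll) := by rw [Real.exp_add, Real.exp_add]
    _ ≤ _ := by
        apply Real.exp_le_exp.mpr
        have h3 : n / ll ≤ (1 + Real.log T) * (n / ll) := by
          have : 0 ≤ Real.log T * (n / ll) := by positivity
          linarith
        have h4 : (2 * C + 16) * (1 + Real.log T) * n / ll =
            (2 * C + 16) * ((1 + Real.log T) * (n / ll)) := by ring
        have h5 : (2 * C + 100) * (1 + Real.log T) * n / ll =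
            (2 * C + 100) * ((1 + Real.log T) * (n / ll)) := by ring
        rw [h4, h5]
        nlinarith

end Pool.Agent.Helper79.LC
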