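import Pool.Agent.Helper79.LE.Scq

/-!
Writing an integer polynomial as a product of powers of separable polynomials of distinct degrees.
-/

open Finset UniqueFactorizationMonoid

namespace Pool.Agent.Helper79.LC

/-- nonconstant prime factors -/
noncomputable def fac (f : Polynomial ℤ) : Multiset (Polynomial ℤ) :=
  (normalizedFactors f).filter fun p => 0 < p.natDegree

lemma mem_fac {f p : Polynomial ℤ} (hp : p ∈ fac f) :
    Irreducible p ∧ 0 < p.natDegree ∧ normalize p = p := by
  obtain ⟨h1, h2⟩ := Multiset.mem_filter.mp hp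
  exact ⟨irreducible_of_normalized_factor p h1, h2, normalize_normalized_factor p h1⟩

lemma fac_prod (f : Polynomial ℤ) (hf : f ≠ 0) :
    ∃ z : ℤ, f = Polynomial.C z * (fac f).prod := by
  obtain ⟨u, hu⟩ := prod_normalizedFactors hf
  have h1 : ∀ s : Multiset (Polynomial ℤ), (∀ p ∈ s, p.natDegree = 0) →
      ∃ z : ℤ, s.prod = Polynomial.C z := by
    intro s
    induction s using Multiset.induction_on with
    | empty => intro _; exact ⟨1, by simp⟩
    | cons p s ih =>
      intro h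
      obtain ⟨z, hz⟩ := ih fun q hq => h q (by simp [hq])
      refine ⟨p.coeff 0 * z, ?_⟩
      rw [Multiset.prod_cons, hz, Polynomial.C_mul,
        ← Polynomial.eq_C_of_natDegree_eq_zero (h p (by simp))]
  obtain ⟨z, hz⟩ := h1 ((normalizedFactors f).filter fun p => ¬ 0 < p.natDegree) (by
    intro p hp
    have := (Multiset.mem_filter.mp hp).2
    omega)
  obtain ⟨w, _, hw⟩ := Polynomial.isUnit_iff.mp u.isUnit
  refine ⟨z * w, ?_⟩
  have h2 := Multiset.filter_add_not (fun p : Polynomial ℤ => 0 < p.natDegree) (normalizedFactors f)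
  rw [← h2, Multiset.prod_add, hz, ← hw] at hu
  conv_lhs => rw [← hu]
  rw [fac, Polynomial.C_mul]
  ring

lemma fac_ne_zero (f : Polynomial ℤ) : (0 : Polynomial ℤ) ∉ fac f := by
  intro h
  exact (mem_fac h).1.ne_zero rfl

lemma MM_mul (f g : Polynomial ℤ) : MM (f * g) = MM f * MM g := by
  rw [MM, MM, MM, Polynomial.map_mul, Polynomial.mahlerMeasure_mul]

lemma MM_dvd {f g : Polynomial ℤ} (hf : f ≠ 0) (h : g ∣ f) : MM g ≤ MM f := by
  obtain ⟨q, rfl⟩ := h
  have hq : q ≠ 0 := right_ne_zero_of_mul hf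
  have hg : g ≠ 0 := left_ne_zero_of_mul hf
  rw [MM_mul]
  exact le_mul_of_one_le_right (zero_le_one.trans (one_le_MM' hg)) (one_le_MM' hq)

lemma MM_C (z : ℤ) : MM (Polynomial.C z) = |(z : ℝ)| := by
  rw [MM, Polynomial.map_C, Polynomial.mahlerMeasure_const]
  simp

lemma coprime_fac {f p q : Polynomial ℤ} (hp : p ∈ fac f) (hq : q ∈ fac f) (hne : p ≠ q) :
    IsCoprime (p.map (Int.castRingHom ℚ)) (q.map (Int.castRingHom ℚ)) := by
  obtain ⟨p1, p2, p3⟩ := mem_fac hp
  obtain ⟨q1, q2, q3⟩ := mem_fac hq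
  have hpp := p1.isPrimitive p2.ne'
  have hqp := q1.isPrimitive q2.ne'
  have hpi := (Polynomial.IsPrimitive.Int.irreducible_iff_irreducible_map_cast hpp).mp p1
  have hqi := (Polynomial.IsPrimitive.Int.irreducible_iff_irreducible_map_cast hqp).mp q1
  rw [hpi.coprime_iff_not_dvd]
  intro hd
  rw [← Polynomial.IsPrimitive.Int.dvd_iff_map_cast_dvd_map_cast p q hpp] at hd
  have hd' : q ∣ p := (p1.associated_of_dvd q1 hd).symm.dvd
  have := normalize_eq_normalize hd hd'
  rw [p3, q3] at this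
  exact hne this

lemma Sq_prod {f : Polynomial ℤ} {P : Finset (Polynomial ℤ)} (hP : ∀ p ∈ P, p ∈ fac f) :
    Sq (∏ p ∈ P, p) := by
  rw [Sq, Polynomial.map_prod]
  apply Polynomial.separable_prod'
  · intro p hp q hq hne
    exact coprime_fac (hP p hp) (hP q hq) hne
  · intro p hp
    obtain ⟨p1, p2, p3⟩ := mem_fac (hP p hp)
    have hpp := p1.isPrimitive p2.ne'
    exact ((Polynomial.IsPrimitive.Int.irreducible_iff_irreducible_map_cast hpp).mp p1).separable

/-- the set of prime factors of multiplicity at least `j` -/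
noncomputable def Pj (f : Polynomial ℤ) (j : ℕ) : Finset (Polynomial ℤ) := by
  classical
  exact (fac f).toFinset.filter fun p => j ≤ (fac f).count p

/-- their product -/
noncomputable def rj (f : Polynomial ℤ) (j : ℕ) : Polynomial ℤ := ∏ p ∈ Pj f j, p

lemma mem_Pj {f p : Polynomial ℤ} {j : ℕ} : p ∈ Pj f j ↔ p ∈ fac f ∧ j ≤ (fac f).count p := by
  classical
  rw [Pj, mem_filter, Multiset.mem_toFinset]

lemma Pj_anti (f : Polynomial ℤ) {i j : ℕ} (h : i ≤ j) : Pj f j ⊆ Pj f i := by
  intro p hp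
  rw [mem_Pj] at hp ⊢
  exact ⟨hp.1, h.trans hp.2⟩

lemma natDegree_prodP {f : Polynomial ℤ} {P : Finset (Polynomial ℤ)} (hP : ∀ p ∈ P, p ∈ fac f) :
    (∏ p ∈ P, p).natDegree = ∑ p ∈ P, p.natDegree :=
  Polynomial.natDegree_prod _ _ fun p hp => (mem_fac (hP p hp)).1.ne_zero

lemma eq_of_natDegree {f : Polynomial ℤ} {i j : ℕ} (h : (rj f i).natDegree = (rj f j).natDegree) :
    rj f i = rj f j := by
  wlog hij : i ≤ j generalizing i j
  · exact (this h.symm (by omega)).symm
  have hP : ∀ j, ∀ p ∈ Pj f j, p ∈ fac f := fun j p hp => (mem_Pj.mp hp).1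
  rw [rj, rj, natDegree_prodP (hP i), natDegree_prodP (hP j)] at h
  have hsub := Pj_anti f hij
  have heq : Pj f j = Pj f i := by
    apply hsub.antisymm
    intro p hp
    by_contra hpj
    have h1 : ∑ q ∈ Pj f j, q.natDegree < ∑ q ∈ Pj f i, q.natDegree := by
      apply sum_lt_sum_of_subset hsub hp hpj (mem_fac (hP i p hp)).2.1
      intro q _ _
      exact Nat.zero_le _
    omega
  rw [rj, rj, heq]

lemma prod_rj (f : Polynomial ℤ) (n : ℕ) (hn : ∀ p ∈ fac f, (fac f).count p ≤ n) :
    (fac f).prod = ∏ j ∈ Icc 1 n, rj f j := by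
  classical
  rw [Finset.prod_multiset_count]
  have h1 : ∀ j, rj f j = ∏ p ∈ (fac f).toFinset, if j ≤ (fac f).count p then p else 1 := by
    intro j
    rw [rj, Pj, prod_filter]
  rw [prod_congr rfl fun j _ => h1 j, prod_comm]
  refine prod_congr rfl fun p hp => ?_
  rw [← prod_filter, prod_const]
  congr 1
  have hc := hn p (Multiset.mem_toFinset.mp hp)
  have h2 : (Icc 1 n).filter (fun j => j ≤ (fac f).count p) = Icc 1 ((fac f).count p) := by
    ext j
    rw [mem_filter, mem_Icc, mem_Icc]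
    omega
  rw [h2, Nat.card_Icc]
  omega

lemma card_le_natDegree (s : Multiset (Polynomial ℤ)) (hs : ∀ p ∈ s, 0 < p.natDegree) :
    Multiset.card s ≤ s.prod.natDegree := by
  rw [Polynomial.natDegree_multiset_prod]
  · have h1 : (s.map fun _ => 1).sum ≤ (s.map Polynomial.natDegree).sum := by
      apply Multiset.sum_map_le_sum_map
      intro p hp
      exact hs p hp
    simpa using h1
  · intro h
    have := hs 0 h
    simp at this

/-- number of layers of degree `d` -/
noncomputable def mj (f : Polynomial ℤ) (n d : ℕ) : ℕ :=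
  if d = 0 then 0 else #((Icc 1 n).filter fun j => (rj f j).natDegree = d)

/-- the layer of degree `d` -/
noncomputable def Rd (f : Polynomial ℤ) (n d : ℕ) : Polynomial ℤ := by
  classical
  exact if h : ∃ j ∈ Icc 1 n, (rj f j).natDegree = d then rj f h.choose else 1

lemma Rd_eq {f : Polynomial ℤ} {n j : ℕ} (hj : j ∈ Icc 1 n) :
    Rd f n (rj f j).natDegree = rj f j := by
  have h : ∃ i ∈ Icc 1 n, (rj f i).natDegree = (rj f j).natDegree := ⟨j, hj, rfl⟩
  rw [Rd, dif_pos h]
  exact eq_of_natDegree h.choose_spec.2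

lemma Pj_fac (f : Polynomial ℤ) (j : ℕ) : ∀ p ∈ Pj f j, p ∈ fac f := fun _ hp => (mem_Pj.mp hp).1

lemma Sq_rj (f : Polynomial ℤ) (j : ℕ) : Sq (rj f j) := Sq_prod (Pj_fac f j)

lemma rj_natDegree_zero {f : Polynomial ℤ} {j : ℕ} (h : (rj f j).natDegree = 0) : rj f j = 1 := by
  have h5 : Pj f j = ∅ := by
    rw [rj, natDegree_prodP (Pj_fac f j)] at h
    by_contra h6
    obtain ⟨p, hp⟩ := nonempty_iff_ne_empty.mpr h6
    have h7 := sum_eq_zero_iff.mp h p hp
    have h8 := (mem_fac (Pj_fac f j p hp)).2.1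
    omega
  rw [rj, h5, prod_empty]

lemma fiber_prod (f : Polynomial ℤ) (n d : ℕ) :
    ∏ j ∈ (Icc 1 n).filter (fun j => (rj f j).natDegree = d), rj f j = Rd f n d ^ mj f n d := by
  have h2 : ∀ j ∈ (Icc 1 n).filter (fun j => (rj f j).natDegree = d), rj f j = Rd f n d := by
    intro j hj
    obtain ⟨h3, h4⟩ := mem_filter.mp hj
    rw [← h4, Rd_eq h3]
  by_cases hd : d = 0
  · subst hd
    rw [mj, if_pos rfl, pow_zero]
    apply prod_eq_one
    intro j hj
    exact rj_natDegree_zero (mem_filter.mp hj).2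
  · rw [prod_congr rfl h2, prod_const, mj, if_neg hd]

lemma mj_zero (f : Polynomial ℤ) (n : ℕ) : mj f n 0 = 0 := by rw [mj, if_pos rfl]

lemma Icc_range {M : Type*} [CommMonoid M] (n : ℕ) (F : ℕ → M) (h0 : F 0 = 1) :
    ∏ d ∈ range (n + 1), F d = ∏ d ∈ Icc 1 n, F d := by
  symm
  apply prod_subset
  · intro d hd
    rw [mem_Icc] at hd
    rw [mem_range]; omega
  · intro d hd hd'
    rw [mem_range] at hd
    rw [mem_Icc] at hd'
    have : d = 0 := by omega
    rw [this, h0]

/-- The decomposition. -/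
theorem decomp (f : Polynomial ℤ) (hf : f ≠ 0) {n : ℕ} (hn : f.natDegree ≤ n) :
    ∃ z : ℤ, f = Polynomial.C z * ∏ d ∈ Icc 1 n, Rd f n d ^ mj f n d ∧
      (∀ d, (d = 0 ∨ n < d) → mj f n d = 0) ∧ ∑ d ∈ Icc 1 n, d * mj f n d ≤ n ∧
      (∀ d ∈ Icc 1 n, mj f n d ≠ 0 → Sq (Rd f n d) ∧ (Rd f n d).natDegree = d ∧
        MM (Rd f n d) ≤ MM f) ∧
      |(z : ℝ)| ≤ MM f := by
  obtain ⟨z, hz⟩ := fac_prod f hf
  have hz0 : z ≠ 0 := by
    intro h
    apply hf
    rw [hz, h]; simp
  have hdeg : (fac f).prod.natDegree = f.natDegree := by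
    conv_rhs => rw [hz]
    rw [Polynomial.natDegree_C_mul hz0]
  have hcount : ∀ p ∈ fac f, (fac f).count p ≤ n := by
    intro p _
    have h1 := Multiset.count_le_card p (fac f)
    have h2 := card_le_natDegree (fac f) fun p hp => (mem_fac hp).2.1
    omega
  have hprod := prod_rj f n hcount
  have hsum : ∑ j ∈ Icc 1 n, (rj f j).natDegree = f.natDegree := by
    rw [← hdeg, hprod, Polynomial.natDegree_prod _ _ fun j _ => (Sq_rj f j).ne_zero]
  have hjn : ∀ j ∈ Icc 1 n, (rj f j).natDegree ∈ range (n + 1) := by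
    intro j hj
    have h1 : (rj f j).natDegree ≤ ∑ j ∈ Icc 1 n, (rj f j).natDegree :=
      single_le_sum (f := fun j => (rj f j).natDegree) (fun _ _ => Nat.zero_le _) hj
    rw [mem_range]; omega
  have hdvd : ∀ j ∈ Icc 1 n, rj f j ∣ f := by
    intro j hj
    have h1 : rj f j ∣ (fac f).prod := by
      rw [hprod]
      exact dvd_prod_of_mem _ hj
    have h2 : Polynomial.C z * (fac f).prod = f := hz.symm
    exact (h1.trans (Dvd.intro_left _ h2))
  refine ⟨z, ?_, ?_, ?_, ?_, ?_⟩
  · conv_lhs => rw [hz, hprod]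
    congr 1
    rw [← prod_fiberwise_of_maps_to hjn, prod_congr rfl fun d _ => fiber_prod f n d]
    apply Icc_range
    rw [mj_zero, pow_zero]
  · rintro d (rfl | hd)
    · exact mj_zero f n
    · rw [mj, if_neg (by omega), card_eq_zero, filter_eq_empty_iff]
      intro j hj h
      have := hjn j hj
      rw [mem_range] at this
      omega
  · have h1 := sum_fiberwise_of_maps_to hjn fun j => (rj f j).natDegree
    have h2 : ∑ d ∈ Icc 1 n, d * mj f n d ≤ ∑ d ∈ range (n + 1),
        ∑ j ∈ (Icc 1 n).filter (fun j => (rj f j).natDegree = d), (rj f j).natDegree := by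
      calc ∑ d ∈ Icc 1 n, d * mj f n d ≤ ∑ d ∈ range (n + 1), d * mj f n d := by
            apply sum_le_sum_of_subset
            intro d hd
            rw [mem_Icc] at hd
            rw [mem_range]; omega
        _ ≤ _ := by
            refine sum_le_sum fun d _ => ?_
            rw [sum_congr rfl fun j hj => (mem_filter.mp hj).2, sum_const, smul_eq_mul, mj]
            split_ifs with h3
            · simp
            · rw [mul_comm]
    rw [h1] at h2
    omega
  · intro d hd hmd
    rw [mem_Icc] at hd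
    rw [mj, if_neg (by omega)] at hmd
    obtain ⟨j, hj⟩ : ((Icc 1 n).filter fun j => (rj f j).natDegree = d).Nonempty :=
      card_ne_zero.mp hmd
    obtain ⟨h3, h4⟩ := mem_filter.mp hj
    have h5 : Rd f n d = rj f j := by rw [← h4, Rd_eq h3]
    rw [h5]
    exact ⟨Sq_rj f j, h4, MM_dvd hf (hdvd j h3)⟩
  · rw [← MM_C]
    apply MM_dvd hf
    exact Dvd.intro _ hz.symm

end Pool.Agent.Helper79.LC
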