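import Pool.Agent.Helper79.LD.Scl

/-!
Separable integer polynomials with any leading coefficient.
-/

open Finset

namespace Pool.Agent.Helper79.LC

variable {f g : Polynomial ℤ}

/-- Integer polynomials without multiple roots. -/
def Sq (f : Polynomial ℤ) : Prop := (f.map (Int.castRingHom ℚ)).Separable

/-- absolute value of the leading coefficient -/
noncomputable def lc (f : Polynomial ℤ) : ℝ := |(f.leadingCoeff : ℝ)|

lemma Sq.ne_zero (h : Sq f) : f ≠ 0 := by
  rintro rfl
  have := h.ne_zero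
  simp at this

lemma mapC_lc (f : Polynomial ℤ) :
    (f.map (Int.castRingHom ℂ)).leadingCoeff = (f.leadingCoeff : ℂ) := by
  rw [Polynomial.leadingCoeff_map_of_injective (RingHom.injective_int _)]
  rfl

lemma mapC_deg (f : Polynomial ℤ) : (f.map (Int.castRingHom ℂ)).natDegree = f.natDegree :=
  Polynomial.natDegree_map_eq_of_injective (RingHom.injective_int _) _

lemma norm_mapC_lc (f : Polynomial ℤ) : ‖(f.map (Int.castRingHom ℂ)).leadingCoeff‖ = lc f := by
  rw [mapC_lc, Complex.norm_intCast, lc]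

lemma one_le_lc (hf : f ≠ 0) : 1 ≤ lc f := by
  rw [lc]
  have : f.leadingCoeff ≠ 0 := Polynomial.leadingCoeff_ne_zero.mpr hf
  exact_mod_cast Int.one_le_abs this

lemma lc_le_MM (f : Polynomial ℤ) : lc f ≤ MM f := by
  rw [← norm_mapC_lc, MM]
  exact Polynomial.leadingCoeff_le_mahlerMeasure _

lemma Sq.rt_val (h : Sq f) : (rt f).val = (f.map (Int.castRingHom ℂ)).roots := by
  have : (f.map (Int.castRingHom ℂ)).Separable := by
    rw [← map_map_C]
    exact Polynomial.Separable.map h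
  rw [rt, Multiset.toFinset_val, (Polynomial.nodup_roots this).dedup]

lemma Sq.card_rt (h : Sq f) : #(rt f) = f.natDegree := by
  have h1 : #(rt f) = Multiset.card (rt f).val := rfl
  rw [h1, h.rt_val, ← (IsAlgClosed.splits _).natDegree_eq_card_roots, mapC_deg]

/-- the monic polynomial with the same roots -/
noncomputable def mo (m : Multiset ℂ) : Polynomial ℂ :=
  (m.map fun a => Polynomial.X - Polynomial.C a).prod

lemma mo_monic (m : Multiset ℂ) : (mo m).Monic :=
  Polynomial.monic_multiset_prod_of_monic _ _ fun a _ => Polynomial.monic_X_sub_C a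

lemma Sq.eq_mo (h : Sq f) : f.map (Int.castRingHom ℂ) =
    Polynomial.C (f.leadingCoeff : ℂ) * mo (rt f).val := by
  rw [h.rt_val, mo, ← mapC_lc]
  exact (IsAlgClosed.splits _).eq_prod_roots

lemma Sq.coeff_HH (h : Sq f) {k : ℕ} (hk : k ≤ f.natDegree) :
    (f.leadingCoeff : ℂ) * PowerSeries.coeff k (HH (rt f).val) =
      ((f.coeff (f.natDegree - k) : ℤ) : ℂ) := by
  have h1 := h.eq_mo
  have h2 : (mo (rt f).val).natDegree = f.natDegree := by
    rw [mo, Polynomial.natDegree_multiset_prod_X_sub_C_eq_card]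
    exact h.card_rt
  have h3 : PowerSeries.coeff k (HH (rt f).val) = (mo (rt f).val).coeff (f.natDegree - k) := by
    rw [HH_eq_reverse, Polynomial.coeff_coe, Polynomial.coeff_reverse]
    have h4 : (Multiset.map (fun a => Polynomial.X - Polynomial.C a) (rt f).val).prod =
        mo (rt f).val := rfl
    rw [h4, h2, Polynomial.revAt_le hk]
  rw [h3, ← Polynomial.coeff_C_mul, ← h1, Polynomial.coeff_map]
  simp

lemma Sq.eval_der (h : Sq f) {a : ℂ} (ha : a ∈ rt f) :
    ‖((Polynomial.derivative f).map (Int.castRingHom ℂ)).eval a‖ =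
      lc f * ∏ b ∈ (rt f).erase a, ‖a - b‖ := by
  rw [← Polynomial.derivative_map, h.eq_mo, Polynomial.derivative_C_mul, Polynomial.eval_C_mul,
    norm_mul, Complex.norm_intCast, lc]
  congr 1
  have hr : (mo (rt f).val).roots = (rt f).val := Polynomial.roots_multiset_prod_X_sub_C _
  have ha' : a ∈ (mo (rt f).val).roots := by rw [hr]; exact ha
  rw [(IsAlgClosed.splits _).eval_root_derivative (mo_monic _) ha', hr, ← norm_prod, Finset.prod,
    Finset.erase_val]

lemma Sq.disc_ge (h : Sq f) :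
    1 ≤ lc f ^ (2 * f.natDegree) * ∏ a ∈ rt f, ∏ b ∈ (rt f).erase a, ‖a - b‖ := by
  have hlc := one_le_lc h.ne_zero
  have hco : IsCoprime (f.map (Int.castRingHom ℚ))
      ((Polynomial.derivative f).map (Int.castRingHom ℚ)) := by
    rw [← Polynomial.derivative_map]
    exact h
  have h1 := Polynomial.resultant_eq_prod_eval (f.map (Int.castRingHom ℂ))
    ((Polynomial.derivative f).map (Int.castRingHom ℂ)) (Polynomial.derivative f).natDegree
    (Polynomial.natDegree_map_le) (IsAlgClosed.splits _)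
  rw [mapC_deg, Polynomial.resultant_map_map] at h1
  have h2 : f.resultant (Polynomial.derivative f) f.natDegree (Polynomial.derivative f).natDegree
      ≠ 0 := by
    have h3 := Polynomial.resultant_ne_zero _ _ hco
    have h4 : (f.map (Int.castRingHom ℚ)).natDegree = f.natDegree :=
      Polynomial.natDegree_map_eq_of_injective (RingHom.injective_int _) _
    have h5 : ((Polynomial.derivative f).map (Int.castRingHom ℚ)).natDegree =
        (Polynomial.derivative f).natDegree :=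
      Polynomial.natDegree_map_eq_of_injective (RingHom.injective_int _) _
    rw [h4, h5, Polynomial.resultant_map_map] at h3
    intro h; apply h3; rw [h]; simp
  have h3 := one_le_of_int h1 (by
    rw [← h1]
    simpa using h2)
  rw [norm_mul, norm_pow, norm_mapC_lc] at h3
  have h6 : ‖(Multiset.map (fun x => Polynomial.eval x ((Polynomial.derivative f).map
        (Int.castRingHom ℂ))) (f.map (Int.castRingHom ℂ)).roots).prod‖ =
      lc f ^ f.natDegree * ∏ a ∈ rt f, ∏ b ∈ (rt f).erase a, ‖a - b‖ := by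
    rw [← h.rt_val]
    have : (Multiset.map (fun x => Polynomial.eval x ((Polynomial.derivative f).map
        (Int.castRingHom ℂ))) (rt f).val).prod = ∏ a ∈ rt f,
        Polynomial.eval a ((Polynomial.derivative f).map (Int.castRingHom ℂ)) := rfl
    rw [this, norm_prod, prod_congr rfl fun a ha => h.eval_der ha, prod_mul_distrib, prod_const,
      h.card_rt]
  rw [h6] at h3
  have h7 : (Polynomial.derivative f).natDegree ≤ f.natDegree :=
    (Polynomial.natDegree_derivative_le f).trans (Nat.sub_le _ _)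
  have h8 : lc f ^ (Polynomial.derivative f).natDegree ≤ lc f ^ f.natDegree :=
    pow_le_pow_right₀ hlc h7
  have h9 : 0 ≤ lc f ^ f.natDegree * ∏ a ∈ rt f, ∏ b ∈ (rt f).erase a, ‖a - b‖ := by
    have : 0 ≤ ∏ a ∈ rt f, ∏ b ∈ (rt f).erase a, ‖a - b‖ :=
      prod_nonneg fun _ _ => prod_nonneg fun _ _ => norm_nonneg _
    positivity
  calc (1 : ℝ) ≤ lc f ^ (Polynomial.derivative f).natDegree *
        (lc f ^ f.natDegree * ∏ a ∈ rt f, ∏ b ∈ (rt f).erase a, ‖a - b‖) := h3
    _ ≤ lc f ^ f.natDegree *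
        (lc f ^ f.natDegree * ∏ a ∈ rt f, ∏ b ∈ (rt f).erase a, ‖a - b‖) := by gcongr
    _ = _ := by rw [← mul_assoc, ← pow_add, two_mul]

lemma Sq.MM_eq (h : Sq f) : MM f = lc f * ∏ a ∈ rt f, max 1 ‖a‖ := by
  rw [MM, Polynomial.mahlerMeasure_eq_leadingCoeff_mul_prod_roots, norm_mapC_lc, Finset.prod,
    h.rt_val]

lemma one_le_MM' (h : f ≠ 0) : 1 ≤ MM f := (one_le_lc h).trans (lc_le_MM f)

lemma one_le_prod_max (S : Finset ℂ) : 1 ≤ ∏ a ∈ S, max 1 ‖a‖ := by
  classical
  induction S using Finset.induction_on with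
  | empty => simp
  | insert a S ha ih =>
    rw [prod_insert ha]
    have := le_max_left 1 ‖a‖
    nlinarith

lemma Sq.prod_le (h : Sq f) : ∏ a ∈ rt f, max 1 ‖a‖ ≤ MM f := by
  rw [h.MM_eq]
  exact le_mul_of_one_le_left (zero_le_one.trans (one_le_prod_max _)) (one_le_lc h.ne_zero)

lemma mm_out_val (S : Finset ℂ) : mm (out S.val) = ∏ a ∈ S, max 1 ‖a‖ := by rw [mm_out]; rfl

lemma Sq.mm_le (h : Sq f) : mm (out (rt f).val) ≤ MM f := by
  rw [mm_out_val]; exact h.prod_le

lemma disc_scF' {r : ℝ} (hr : 0 < r) (S : Finset ℂ) {R0 : ℝ} (hR0 : 0 ≤ R0)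
    (h : R0 ≤ ∏ a ∈ S, ∏ b ∈ S.erase a, ‖a - b‖) (hr1 : r ≤ 1) :
    r ^ (#S * #S) * R0 ≤ ∏ a ∈ scF r hr.ne' S, ∏ b ∈ (scF r hr.ne' S).erase a, ‖a - b‖ := by
  classical
  have h1 : ∏ a ∈ scF r hr.ne' S, ∏ b ∈ (scF r hr.ne' S).erase a, ‖a - b‖ =
      ∏ a ∈ S, ∏ b ∈ S.erase a, (r * ‖a - b‖) := by
    rw [scF, prod_map]
    refine prod_congr rfl fun a _ => ?_
    rw [← map_erase, prod_map]
    refine prod_congr rfl fun b _ => ?_
    change ‖(r : ℂ) * a - (r : ℂ) * b‖ = r * ‖a - b‖
    rw [← mul_sub, norm_mul, Complex.norm_real, Real.norm_of_nonneg hr.le]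
  rw [h1]
  have h2 : ∀ a ∈ S, ∏ b ∈ S.erase a, (r * ‖a - b‖) = r ^ (#S - 1) * ∏ b ∈ S.erase a, ‖a - b‖ := by
    intro a ha
    rw [prod_mul_distrib, prod_const, card_erase_of_mem ha]
  rw [prod_congr rfl h2, prod_mul_distrib, prod_const, ← pow_mul]
  have h3 : r ^ (#S * #S) ≤ r ^ ((#S - 1) * #S) :=
    pow_le_pow_of_le_one hr.le hr1 (by gcongr; omega)
  gcongr

/-- Energy of the rescaled roots. -/
lemma AA_scq (h : Sq f) {n : ℕ} (hn : 2 ≤ n) (hfn : f.natDegree = n) {ρ : ℝ} (hρ : 0 ≤ ρ) :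
    AA (sc (1 + ρ / n)⁻¹ (rt f).val) n ≤ 2 * n * (Real.log n + 4 * Real.log (MM f) + ρ + 2) := by
  have hn0 : (0 : ℝ) < n := by positivity
  have hn2 : (2 : ℝ) ≤ n := by exact_mod_cast hn
  set s : ℝ := (1 + ρ / n)⁻¹ with hs
  have h1ρ : 1 ≤ 1 + ρ / n := by
    have : 0 ≤ ρ / n := by positivity
    linarith
  have hs0 : 0 < s := by positivity
  have hs1 : s ≤ 1 := inv_le_one_of_one_le₀ h1ρ
  set S := scF s hs0.ne' (rt f) with hS
  have hSc : #S = n := by rw [hS, scF, card_map, h.card_rt, hfn]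
  have hx : (0 : ℝ) < 1 / (2 * n) := by positivity
  have hx1 : (1 : ℝ) / (2 * n) ≤ 1 / 4 := by
    rw [div_le_div_iff₀ (by positivity) (by norm_num)]; linarith
  set r : ℝ := 1 - 1 / (2 * n) with hr
  have hr0 : 0 < r := by rw [hr]; linarith
  have hr1 : r < 1 := by rw [hr]; linarith
  have hrn : 1 / 2 ≤ r ^ n := by
    apply pow_ge n (by linarith)
    apply le_of_eq; field_simp
  rw [← scF_val s hs0.ne', ← hS]
  have hlc := one_le_lc h.ne_zero
  have hlc0 : 0 < lc f := by linarith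
  have h1 := AA_le_EE hr0 hr1 S n hrn le_rfl
  have h2 := sums_EE hr0 hr1 S n
  have hdisc : (lc f ^ (2 * f.natDegree))⁻¹ ≤ ∏ a ∈ rt f, ∏ b ∈ (rt f).erase a, ‖a - b‖ := by
    rw [inv_le_iff_one_le_mul₀ (by positivity), mul_comm]
    exact h.disc_ge
  have h3 := EE_self' hr0 hr1 (S := S)
    (R := s ^ (#(rt f) * #(rt f)) * (lc f ^ (2 * f.natDegree))⁻¹) (by positivity)
    (disc_scF' hs0 (rt f) (by positivity) hdisc hs1)
  have hLM : LM S ≤ Real.log (MM f) := by
    have h5 : LM (rt f) ≤ Real.log (MM f) := by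
      rw [LM_le_log]
      apply Real.log_le_log _ h.mm_le
      rw [mm_out_val]
      linarith [one_le_prod_max (rt f)]
    refine le_trans ?_ h5
    rw [LM_le_log, LM_le_log, hS, scF_val]
    have h4 : 0 < mm (out (sc s (rt f).val)) := by
      apply lt_of_lt_of_le one_pos
      exact mm_pos _ (fun a ha => (Multiset.mem_filter.mp ha).2)
    exact Real.log_le_log h4 (mm_out_sc hs0.le hs1 _)
  rw [hSc, h.card_rt, hfn] at h3
  have h4 : 1 - r = 1 / (2 * n) := by rw [hr]; ring
  have h5 : Real.log (1 / (2 * n)) = - (Real.log 2 + Real.log n) := by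
    rw [one_div, Real.log_inv, Real.log_mul (by norm_num) hn0.ne']
  have h6 : (n : ℝ) * n * Real.log (2 / (1 + r)) ≤ n / 2 := by
    have := log_r hr0 hr1
    rw [h4] at this
    calc (n : ℝ) * n * Real.log (2 / (1 + r)) ≤ n * n * (1 / (2 * n)) := by gcongr
      _ = n / 2 := by field_simp
  have h7 : Real.log 2 < 0.7 := lt_trans Real.log_two_lt_d9 (by norm_num)
  have hlog : Real.log (lc f) ≤ Real.log (MM f) := Real.log_le_log hlc0 (lc_le_MM f)
  have h8 : - Real.log (s ^ (n * n) * (lc f ^ (2 * n))⁻¹) ≤ n * ρ + 2 * n * Real.log (MM f) := by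
    rw [Real.log_mul (by positivity) (by positivity), Real.log_inv, Real.log_pow, Real.log_pow, hs,
      Real.log_inv]
    have h9 : Real.log (1 + ρ / n) ≤ ρ / n := by
      have := Real.log_le_sub_one_of_pos (show 0 < 1 + ρ / n by linarith)
      linarith
    push_cast
    have h10 : (n : ℝ) * n * Real.log (1 + ρ / n) ≤ n * n * (ρ / n) := by gcongr
    have h11 : (n : ℝ) * n * (ρ / n) = n * ρ := by field_simp
    have h12 : 2 * (n : ℝ) * Real.log (lc f) ≤ 2 * n * Real.log (MM f) := by gcongr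
    linarith
  have h9 : 2 * (n : ℝ) * LM S ≤ 2 * n * Real.log (MM f) := by gcongr
  rw [h4, h5] at h3
  nlinarith

end Pool.Agent.Helper79.LC
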