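import Pool.Agent.Helper79.LD.Cnt
import Pool.Agent.Helper79.LD.Cell
import Pool.Agent.Helper79.LD.Lvl
import Pool.Agent.Helper79.LE.Scq

/-!
Counting classes of separable polynomials with a given leading coefficient.
-/

open Finset

namespace Pool.Agent.Helper79.LC

lemma ac_injq {n : ℕ} {f g : Polynomial ℤ} (hlc : f.leadingCoeff = g.leadingCoeff)
    (hf : f.natDegree = n) (hg : g.natDegree = n)
    (h : ∀ k, 1 ≤ k → k ≤ n → ac n f k = ac n g k) : f = g := by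
  ext j
  rcases lt_trichotomy j n with hj | hj | hj
  · have := h (n - j) (by omega) (by omega)
    simp only [ac] at this
    rwa [show n - (n - j) = j by omega] at this
  · subst hj
    have h1 : f.coeff j = f.leadingCoeff := by rw [← hf]; rfl
    have h2 : g.coeff j = g.leadingCoeff := by rw [← hg]; rfl
    rw [h1, h2, hlc]
  · rw [Polynomial.coeff_eq_zero_of_natDegree_lt (by omega),
      Polynomial.coeff_eq_zero_of_natDegree_lt (by omega)]

lemma top_scq {n : ℕ} {f g : Polynomial ℤ} (hf : Sq f) (hg : Sq g)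
    (hlc : f.leadingCoeff = g.leadingCoeff) (hfn : f.natDegree = n)
    (hgn : g.natDegree = n) (r : ℝ) {k : ℕ} (hk : k ≤ n)
    (h : ∀ j, 1 ≤ j → j < k → ac n g j = ac n f j) :
    ∀ j < k, PowerSeries.coeff j (HH (sc r (rt f).val)) =
      PowerSeries.coeff j (HH (sc r (rt g).val)) := by
  intro j hj
  rw [coeff_HH_sc, coeff_HH_sc]
  congr 1
  rcases Nat.eq_zero_or_pos j with h0 | h0
  · subst h0; rw [constantCoeff_HH, constantCoeff_HH]
  · have h1 := hf.coeff_HH (k := j) (by omega)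
    have h2 := hg.coeff_HH (k := j) (by omega)
    have h3 : (f.leadingCoeff : ℂ) ≠ 0 := by
      have : f.leadingCoeff ≠ 0 := Polynomial.leadingCoeff_ne_zero.mpr hf.ne_zero
      exact_mod_cast this
    apply mul_left_cancel₀ h3
    rw [h1, hlc, h2, hfn, hgn]
    have := h j h0 hj
    simp only [ac] at this
    rw [this]

lemma norm_sc_subq {n : ℕ} {f g : Polynomial ℤ} (hf : Sq f) (hg : Sq g)
    (hlc : f.leadingCoeff = g.leadingCoeff) (hfn : f.natDegree = n)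
    (hgn : g.natDegree = n) {r : ℝ} (hr : 0 ≤ r) {k : ℕ} (hk : k ≤ n) :
    lc f * ‖PowerSeries.coeff k (HH (sc r (rt f).val)) -
      PowerSeries.coeff k (HH (sc r (rt g).val))‖ =
      r ^ k * ((|ac n f k - ac n g k| : ℤ) : ℝ) := by
  have h1 := hf.coeff_HH (k := k) (by omega)
  have h2 := hg.coeff_HH (k := k) (by omega)
  rw [← hlc] at h2
  have h3 : lc f = ‖(f.leadingCoeff : ℂ)‖ := by rw [Complex.norm_intCast, lc]
  rw [h3, coeff_HH_sc, coeff_HH_sc, ← mul_sub, norm_mul, norm_pow, Complex.norm_real,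
    Real.norm_of_nonneg hr, mul_left_comm, ← norm_mul, mul_sub, h1, h2, hfn, hgn,
    ← Int.cast_sub, Complex.norm_intCast]
  simp [ac]

theorem class_countq {n K B β : ℕ} {T r R τ E : ℝ} {ℓ : ℤ} (hT : 1 ≤ T) (hr0 : 0 < r)
    (hr1 : r ≤ 1) (hR1 : 1 ≤ r ^ n * R) (hR : |(ℓ : ℝ)| ≤ r ^ n * R) (hτ0 : 0 ≤ τ) (hE : 0 ≤ E)
    (G : Finset (Polynomial ℤ)) (hG : ∀ f ∈ G, Sq f ∧ f.natDegree = n ∧ MM f ≤ T ∧
      f.leadingCoeff = ℓ)
    (m₀ : Multiset ℂ) (hm₀ : mm (out m₀) ≤ T)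
    (hcl : ∀ f ∈ G, NN n (BQ (out (sc r (rt f).val)) - BQ (out m₀)) ≤ τ ^ 2)
    (hAA : ∀ f ∈ G, AA (sc r (rt f).val) n ≤ E) (hK : 1 ≤ K)
    (hsmall : R * (2 * T * τ + 4 * T * τ * √(n * E) / K) ≤ 1 / 4)
    (hB : R * (2 * n * T * τ + 4 * T * τ * √(n * E) + 2 * (T ^ 2 * √(n * E))) ≤ B)
    (hβ : 16 * R ^ 2 * T ^ 4 * (n * E) ≤ β * K ^ 2) :
    #G ≤ (2 * B + 1) ^ K * ((n + 1) * (2 * B + 1)) ^ β := by
  classical
  have hRpos : 0 < R := by
    by_contra h
    push Not at h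
    have : r ^ n * R ≤ 0 := mul_nonpos_of_nonneg_of_nonpos (by positivity) h
    linarith
  set Y : ℝ := √(n * E) with hY
  have hY0 : 0 ≤ Y := Real.sqrt_nonneg _
  have hYsq : Y ^ 2 = n * E := Real.sq_sqrt (by positivity)
  set V : Polynomial ℤ → ℕ → ℝ := fun f k => Vq (BQ (out m₀)) (sc r (rt f).val) k with hV
  have hVnn : ∀ f k, 0 ≤ V f k := fun f k => norm_nonneg _
  have hNN : ∀ f ∈ G, NN n (PW ((sc r (rt f).val).map refl)) ≤ Y ^ 2 := by
    intro f hf
    rw [hYsq]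
    refine (NN_PW_le _ n).trans ?_
    have := hAA f hf
    gcongr
  have hVsum : ∀ f ∈ G, ∑ j ∈ range (n + 1), V f j ^ 2 ≤ T ^ 4 * Y ^ 2 := by
    intro f hf
    refine (sum_Vq_le hm₀ n).trans ?_
    have := hNN f hf
    gcongr
  have hVle : ∀ f ∈ G, ∀ k ≤ n, V f k ≤ T ^ 2 * Y := by
    intro f hf k hk
    have h1 : V f k ^ 2 ≤ ∑ j ∈ range (n + 1), V f j ^ 2 :=
      single_le_sum (f := fun j => V f j ^ 2) (fun _ _ => sq_nonneg _) (mem_range.mpr (by omega))
    have h2 : V f k ^ 2 ≤ (T ^ 2 * Y) ^ 2 := by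
      refine h1.trans ((hVsum f hf).trans (le_of_eq ?_))
      ring
    exact le_of_sq_le_sq h2 (by positivity)
  have hmm : ∀ f ∈ G, mm (out (sc r (rt f).val)) ≤ T := by
    intro f hf
    obtain ⟨h1, h2, h3, _⟩ := hG f hf
    exact (mm_out_sc hr0.le hr1 _).trans (h1.mm_le.trans h3)
  -- the basic inequality
  have key : ∀ f ∈ G, ∀ g ∈ G, ∀ k, 1 ≤ k → k ≤ n → (∀ j, 1 ≤ j → j < k → ac n g j = ac n f j) →
      V g k ≤ V f k → (k : ℝ) * ((|ac n f k - ac n g k| : ℤ) : ℝ) ≤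
        R * (2 * k * T * τ + 4 * T * τ * Y + 2 * V f k) := by
    intro f hf g hg k hk1 hkn hj hVV
    obtain ⟨f1, f2, f3, f4⟩ := hG f hf
    obtain ⟨g1, g2, g3, g4⟩ := hG g hg
    have h1 := branchC (m := sc r (rt f).val) (m' := sc r (rt g).val) (m₀ := m₀) (T := T) (τ := τ)
      (Y := Y) (by linarith) (hmm f hf) (hmm g hg) hm₀ (k := k) hτ0 hY0
      ((NN_mono hkn _).trans (hcl f hf)) ((NN_mono hkn _).trans (hcl g hg))
      ((NN_mono hkn _).trans (hNN f hf)) ((NN_mono hkn _).trans (hNN g hg))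
      (top_scq f1 g1 (f4.trans g4.symm) f2 g2 r hkn hj)
    have h1' := norm_sc_subq f1 g1 (f4.trans g4.symm) f2 g2 hr0.le hkn
    have hlf : lc f = |(ℓ : ℝ)| := by rw [lc, f4]
    have hl1 : 1 ≤ lc f := one_le_lc f1.ne_zero
    set N : ℝ := ‖PowerSeries.coeff k (HH (sc r (rt f).val)) -
      PowerSeries.coeff k (HH (sc r (rt g).val))‖ with hN
    set D : ℝ := ((|ac n f k - ac n g k| : ℤ) : ℝ) with hD
    have hD0 : 0 ≤ D := by rw [hD]; exact_mod_cast abs_nonneg _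
    have h2 : lc f ≤ r ^ k * R := by
      have : r ^ n ≤ r ^ k := pow_le_pow_of_le_one hr0.le hr1 hkn
      rw [hlf]
      exact hR.trans (by gcongr)
    have h3 : (k : ℝ) * N ≤ 2 * k * T * τ + 4 * T * τ * Y + 2 * V f k := by
      have : V f k + V g k ≤ 2 * V f k := by linarith
      simp only [hV] at this ⊢
      linarith
    have hN0 : 0 ≤ N := norm_nonneg _
    have hDN : D ≤ R * N := by
      have h4 : r ^ k * D ≤ r ^ k * (R * N) := by
        calc r ^ k * D = lc f * N := h1'.symm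
          _ ≤ (r ^ k * R) * N := by gcongr
          _ = _ := by ring
      exact le_of_mul_le_mul_left h4 (by positivity)
    calc (k : ℝ) * D ≤ k * (R * N) := by gcongr
      _ = R * (k * N) := by ring
      _ ≤ _ := by gcongr
  have hcrude : ∀ f ∈ G, ∀ g ∈ G, ∀ k, 1 ≤ k → k ≤ n →
      (∀ j, 1 ≤ j → j < k → ac n g j = ac n f j) → V g k ≤ V f k →
      |ac n f k - ac n g k| ≤ (B : ℤ) := by
    intro f hf g hg k hk1 hkn hj hVV
    have h1 := key f hf g hg k hk1 hkn hj hVV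
    have hk1' : (1 : ℝ) ≤ k := by exact_mod_cast hk1
    have hkn' : (k : ℝ) ≤ n := by exact_mod_cast hkn
    have h2 := hVle f hf k hkn
    have h3 : ((|ac n f k - ac n g k| : ℤ) : ℝ) ≤ B := by
      set D : ℝ := ((|ac n f k - ac n g k| : ℤ) : ℝ) with hD
      have hD0 : 0 ≤ D := by rw [hD]; exact_mod_cast abs_nonneg _
      calc D = 1 * D := by ring
        _ ≤ k * D := by gcongr
        _ ≤ _ := h1
        _ ≤ R * (2 * n * T * τ + 4 * T * τ * Y + 2 * (T ^ 2 * Y)) := by gcongr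
        _ ≤ B := hB
    exact_mod_cast h3
  have hmain := tree_count G (ac n) V n K B β (fun _ => B) (by
      intro f hf g hg h
      obtain ⟨f1, f2, f3, f4⟩ := hG f hf
      obtain ⟨g1, g2, g3, g4⟩ := hG g hg
      exact ac_injq (f4.trans g4.symm) f2 g2 h)
    (by
      intro f hf g hg k hk1 hkn _ hj hVV
      exact hcrude f hf g hg k hk1 hkn hj hVV)
    (by
      intro f hf g hg k hk1 hkn _ hj hVV
      exact hcrude f hf g hg k hk1 hkn hj hVV)
    (fun f => (Ioc K n).filter fun k : ℕ => (k : ℝ) ≤ 4 * R * V f k)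
    (by
      intro f hf
      have hK0 : (0 : ℝ) < K := by exact_mod_cast hK
      set S := (Ioc K n).filter fun k : ℕ => (k : ℝ) ≤ 4 * R * V f k with hS
      have h1 : (#S : ℝ) * K ^ 2 ≤ ∑ k ∈ S, 16 * R ^ 2 * V f k ^ 2 := by
        rw [card_eq_sum_ones, Nat.cast_sum, sum_mul]
        refine sum_le_sum fun k hk => ?_
        obtain ⟨h2, h3⟩ := mem_filter.mp hk
        rw [mem_Ioc] at h2
        have h4 : (K : ℝ) ≤ k := by exact_mod_cast h2.1.le
        calc ((1 : ℕ) : ℝ) * (K : ℝ) ^ 2 ≤ (k : ℝ) ^ 2 := by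
              rw [Nat.cast_one, one_mul]; gcongr
          _ ≤ (4 * R * V f k) ^ 2 := by gcongr
          _ = _ := by ring
      have h2 : ∑ k ∈ S, 16 * R ^ 2 * V f k ^ 2 ≤ 16 * R ^ 2 * (T ^ 4 * Y ^ 2) := by
        rw [← mul_sum]
        have h3 : ∑ k ∈ S, V f k ^ 2 ≤ ∑ j ∈ range (n + 1), V f j ^ 2 := by
          apply sum_le_sum_of_subset_of_nonneg
          · intro x hx
            have := (mem_filter.mp hx).1
            rw [mem_Ioc] at this
            rw [mem_range]; omega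
          · intros; positivity
        have h4 := hVsum f hf
        gcongr
        exact h3.trans h4
      have h3 : (#S : ℝ) * K ^ 2 ≤ β * K ^ 2 := by
        refine h1.trans (h2.trans ((le_of_eq ?_).trans hβ))
        rw [hYsq]; ring
      have h4 : (#S : ℝ) ≤ β := le_of_mul_le_mul_right h3 (by positivity)
      exact_mod_cast h4)
    (by
      intro f hf g hg k hk1 hkn hKk hj hVV hnb
      have h1 := key f hf g hg k hk1 hkn hj hVV
      have hk0 : (0 : ℝ) < k := by exact_mod_cast hk1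
      have hKk' : (K : ℝ) ≤ k := by exact_mod_cast hKk.le
      have hK0 : (0 : ℝ) < K := by exact_mod_cast hK
      have h2 : 4 * R * V f k < k := by
        by_contra h
        push Not at h
        exact hnb (mem_filter.mpr ⟨mem_Ioc.mpr ⟨hKk, hkn⟩, h⟩)
      set D : ℝ := ((|ac n f k - ac n g k| : ℤ) : ℝ) with hD
      have hD0 : 0 ≤ D := by rw [hD]; exact_mod_cast abs_nonneg _
      have h3 : 4 * T * τ * Y ≤ k * (4 * T * τ * Y / K) := by
        calc 4 * T * τ * Y = K * (4 * T * τ * Y / K) := by field_simp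
          _ ≤ k * (4 * T * τ * Y / K) := by gcongr
      have h4 : (k : ℝ) * D < k * 1 := by
        calc (k : ℝ) * D ≤ R * (2 * k * T * τ + 4 * T * τ * Y + 2 * V f k) := h1
          _ ≤ R * (2 * k * T * τ + k * (4 * T * τ * Y / K) + 2 * V f k) := by gcongr
          _ = k * (R * (2 * T * τ + 4 * T * τ * Y / K)) + 2 * R * V f k := by ring
          _ ≤ k * (1 / 4) + 2 * R * V f k := by gcongr
          _ < k * 1 := by linarith
      have h5 : D < 1 := lt_of_mul_lt_mul_left h4 hk0.le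
      have h6 : |ac n f k - ac n g k| < 1 := by
        rw [hD] at h5
        exact_mod_cast h5
      have h7 := Int.abs_lt_one_iff.mp h6
      omega)
  rw [prod_const, card_range] at hmain
  exact hmain


theorem level_countq {n K B' β s N A B : ℕ} {T r R τ E κ ε Λ : ℝ} {ℓ : ℤ} (hT : 1 ≤ T)
    (hr0 : 0 < r)
    (hr1 : r ≤ 1) (hR1 : 1 ≤ r ^ n * R) (hR : |(ℓ : ℝ)| ≤ r ^ n * R)
    (hτ0 : 0 ≤ τ) (hE : 0 ≤ E) (hs1 : 1 ≤ s)
    (hκ : 0 < κ) (hε : 0 < ε) (hε1 : ε ≤ 1)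
    (hN : T ≤ ε * N) (hA : 2 ≤ κ * A) (hB : 7 ≤ κ * ε * B)
    (hεs : ε * s ≤ T) (hΛ : Real.log (1 + 1 / (κ * ε)) ≤ Λ)
    (hτ : 16 * T ^ 5 * (1 + T) * κ * Λ ≤ τ ^ 2)
    (F : Finset (Polynomial ℤ)) (hF : ∀ f ∈ F, Sq f ∧ f.natDegree = n ∧ MM f ≤ T ∧
      Multiset.card (out (sc r (rt f).val)) ≤ s) (hFl : ∀ f ∈ F, f.leadingCoeff = ℓ)
    (hAA : ∀ f ∈ F, AA (sc r (rt f).val) n ≤ E) (hK : 1 ≤ K)
    (hsmall : R * (2 * T * τ + 4 * T * τ * √(n * E) / K) ≤ 1 / 4)
    (hB' : R * (2 * n * T * τ + 4 * T * τ * √(n * E) + 2 * (T ^ 2 * √(n * E))) ≤ B')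
    (hβ : 16 * R ^ 2 * T ^ 4 * (n * E) ≤ β * K ^ 2) :
    (#F : ℝ) ≤ (Real.exp 1 * (((Nat.log 2 N + 1) * ((A + 1) * (B + 1)) : ℕ) + 1 + s) / s) ^ s *
      (((2 * B' + 1) ^ K * ((n + 1) * (2 * B' + 1)) ^ β : ℕ) : ℝ) := by
  classical
  set w : Polynomial ℤ → Multiset (Fin (Nat.log 2 N + 1) × Fin (A + 1) × Fin (B + 1)) :=
    fun f => (out (sc r (rt f).val)).map (cf (Nat.log 2 N) A B κ ε) with hw
  have hmm : ∀ f ∈ F, mm (out (sc r (rt f).val)) ≤ T := by
    intro f hf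
    obtain ⟨h1, h2, h3, _⟩ := hF f hf
    exact (mm_out_sc hr0.le hr1 _).trans (h1.mm_le.trans h3)
  have hgt : ∀ m : Multiset ℂ, ∀ a ∈ out m, 1 < ‖a‖ := fun m a ha => (Multiset.mem_filter.mp ha).2
  have hfib : ∀ c ∈ F.image w, #(F.filter fun f => w f = c) ≤
      (2 * B' + 1) ^ K * ((n + 1) * (2 * B' + 1)) ^ β := by
    intro c hc
    obtain ⟨g, hg, rfl⟩ := mem_image.mp hc
    apply class_countq hT hr0 hr1 hR1 hR hτ0 hE _ _ (sc r (rt g).val) (hmm g hg) _ _ hK hsmall hB' hβ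
    · intro f hf
      obtain ⟨h1, h2, h3, _⟩ := hF f (mem_filter.mp hf).1
      exact ⟨h1, h2, h3, hFl f (mem_filter.mp hf).1⟩
    · intro f hf
      obtain ⟨hf1, hf2⟩ := mem_filter.mp hf
      have h1 := rel_of_code hκ hε hε1 hN hA hB (m := out (sc r (rt f).val))
        (m' := out (sc r (rt g).val))
        (fun a ha => ⟨hgt _ a ha, (norm_le_mm (hgt _) a ha).trans (hmm f hf1)⟩)
        (fun a ha => ⟨hgt _ a ha, (norm_le_mm (hgt _) a ha).trans (hmm g hg)⟩) hf2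
      have h2 := NN_close hT h1 (hmm f hf1) (hmm g hg) n
      have h3 := sum_e_le hκ hε hT (hgt _) (hmm f hf1) (hF f hf1).2.2.2 hεs hΛ
      refine h2.trans ?_
      calc 8 * T ^ 4 * ((out (sc r (rt f).val)).map fun a => (1 + T) * κ * nu ε a *
            Real.log (1 + 1 / ((1 + T) * κ * nu ε a))).sum
          ≤ 8 * T ^ 4 * ((1 + T) * κ * (2 * T) * Λ) := by gcongr
        _ = 16 * T ^ 5 * (1 + T) * κ * Λ := by ring
        _ ≤ τ ^ 2 := hτ
    · intro f hf
      exact hAA f (mem_filter.mp hf).1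
  have h1 := card_le_mul_card_image F _ hfib
  have h2 := card_codes F w s hs1 (by
    intro f hf
    rw [hw, Multiset.card_map]
    exact (hF f hf).2.2.2)
  have h3 : Fintype.card (Fin (Nat.log 2 N + 1) × Fin (A + 1) × Fin (B + 1)) =
      (Nat.log 2 N + 1) * ((A + 1) * (B + 1)) := by
    simp only [Fintype.card_prod, Fintype.card_fin]
  rw [h3] at h2
  have h4 : (#F : ℝ) ≤ (((2 * B' + 1) ^ K * ((n + 1) * (2 * B' + 1)) ^ β : ℕ) : ℝ) *
      #(F.image w) := by exact_mod_cast h1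
  refine h4.trans ?_
  rw [mul_comm]
  gcongr

end Pool.Agent.Helper79.LC
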