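import Pool.Agent.Helper79.LE.Finq
import Pool.Agent.Helper79.LE.Chain

/-!
Counting all integer polynomials through separable ones.
-/

open Finset

namespace Pool.Agent.Helper79.LC

/-- All nonzero integer polynomials of degree at most `n` and Mahler measure at most `T`. -/
def famZ (n : ℕ) (T : ℝ) : Set (Polynomial ℤ) := {f | f ≠ 0 ∧ f.natDegree ≤ n ∧ MM f ≤ T}

lemma finite_famZ (n : ℕ) {T : ℝ} (hT : 0 ≤ T) : (famZ n T).Finite := by
  refine (finite_MM n T hT).subset ?_
  rintro f ⟨_, h1, h2⟩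
  exact ⟨h1, h2⟩

/-- support of a sequence -/
noncomputable def spt (n : ℕ) (m : ℕ → ℤ) : Finset ℕ := (Icc 1 n).filter fun d => m d ≠ 0

/-- multiplicities as integers -/
noncomputable def mi (n : ℕ) (f : Polynomial ℤ) (d : ℕ) : ℤ := mj f n d

theorem gen_count {n β : ℕ} {T W : ℝ} (hT : 1 ≤ T)
    (hβ : ∀ D ⊆ Icc 1 n, ∑ d ∈ D, d ≤ n → #D ≤ β)
    (hW : ∀ D ⊆ Icc 1 n, ∑ d ∈ D, d ≤ n → ∏ d ∈ D, ((famQ d T).ncard : ℝ) ≤ W) :
    ((famZ n T).ncard : ℝ) ≤ (2 * T + 1) * (((n : ℝ) + 1) * (2 * n + 1)) ^ β * W := by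
  classical
  have hT0 : 0 ≤ T := by linarith
  have hW1 : 1 ≤ W := by
    have := hW ∅ (empty_subset _) (by simp)
    simpa using this
  set F : Finset (Polynomial ℤ) := (finite_famZ n hT0).toFinset with hF
  have hmem : ∀ f ∈ F, f ≠ 0 ∧ f.natDegree ≤ n ∧ MM f ≤ T := by
    intro f hf
    rw [hF, Set.Finite.mem_toFinset] at hf
    exact hf
  have hncard : (famZ n T).ncard = #F := by
    rw [hF, Set.ncard_eq_toFinset_card _ (finite_famZ n hT0)]
  have hdec : ∀ f : Polynomial ℤ, ∃ z : ℤ, f ∈ F →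
      (f = Polynomial.C z * ∏ d ∈ Icc 1 n, Rd f n d ^ mj f n d ∧
      (∀ d, (d = 0 ∨ n < d) → mj f n d = 0) ∧ ∑ d ∈ Icc 1 n, d * mj f n d ≤ n ∧
      (∀ d ∈ Icc 1 n, mj f n d ≠ 0 → Sq (Rd f n d) ∧ (Rd f n d).natDegree = d ∧
        MM (Rd f n d) ≤ MM f) ∧ |(z : ℝ)| ≤ MM f) := by
    intro f
    by_cases hf : f ∈ F
    · obtain ⟨z, hz⟩ := decomp f (hmem f hf).1 (hmem f hf).2.1
      exact ⟨z, fun _ => hz⟩
    · exact ⟨0, fun h => absurd h hf⟩
  choose z hz using hdec
  set S : ℕ → Finset (Polynomial ℤ) := fun d => (finite_famQ d hT0).toFinset with hS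
  have hScard : ∀ d, #(S d) = (famQ d T).ncard := by
    intro d
    rw [hS, Set.ncard_eq_toFinset_card _ (finite_famQ d hT0)]
  set code : Polynomial ℤ → ℤ × (ℕ → ℤ) := fun f => (z f, mi n f) with hcode
  -- supports
  have hsupp : ∀ f ∈ F, spt n (mi n f) ⊆ Icc 1 n ∧ ∑ d ∈ spt n (mi n f), d ≤ n := by
    intro f hf
    obtain ⟨h1, h2, h3, h4, h5⟩ := hz f hf
    refine ⟨filter_subset _ _, ?_⟩
    calc ∑ d ∈ spt n (mi n f), d ≤ ∑ d ∈ spt n (mi n f), d * mj f n d := by
          refine sum_le_sum fun d hd => ?_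
          have h6 := (mem_filter.mp hd).2
          have h7 : mj f n d ≠ 0 := by
            intro h; apply h6; rw [mi, h]; rfl
          exact Nat.le_mul_of_pos_right d (Nat.pos_of_ne_zero h7)
      _ ≤ ∑ d ∈ Icc 1 n, d * mj f n d := sum_le_sum_of_subset (filter_subset _ _)
      _ ≤ n := h3
  -- the image of the code
  have himg : F.image code ⊆ (Icc (-(⌊T⌋₊ : ℤ)) ⌊T⌋₊) ×ˢ SP n n β := by
    intro c hc
    obtain ⟨f, hf, rfl⟩ := mem_image.mp hc
    obtain ⟨h1, h2, h3, h4, h5⟩ := hz f hf
    rw [mem_product]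
    constructor
    · simp only [hcode]
      rw [mem_Icc, ← abs_le]
      have h6 : ((z f).natAbs : ℝ) ≤ T := by
        rw [Nat.cast_natAbs]; push_cast; exact h5.trans (hmem f hf).2.2
      have h7 := Nat.le_floor h6
      rw [Int.abs_eq_natAbs]
      exact_mod_cast h7
    · simp only [hcode]
      apply mem_SP n n β (mi n f) (spt n (mi n f))
      · intro k hk
        have := (hsupp f hf).1 hk
        rw [mem_Icc] at this
        exact this.2
      · exact hβ _ (hsupp f hf).1 (hsupp f hf).2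
      · intro k hk
        by_contra h6
        apply hk
        rw [spt, mem_filter]
        refine ⟨?_, h6⟩
        rw [mem_Icc]
        by_contra h7
        apply h6
        rw [mi, h2 k (by omega)]
        rfl
      · intro k hk
        have hk1 := (mem_filter.mp hk).1
        have hk1' := mem_Icc.mp hk1
        have h6 : k * mj f n k ≤ n :=
          (single_le_sum (f := fun d => d * mj f n d) (fun _ _ => Nat.zero_le _) hk1).trans h3
        have h7 : mj f n k ≤ n := (Nat.le_mul_of_pos_left _ hk1'.1).trans h6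
        rw [mi, abs_of_nonneg (by positivity)]
        exact_mod_cast h7
  have hcardimg : (#(F.image code) : ℝ) ≤ (2 * T + 1) * (((n : ℝ) + 1) * (2 * n + 1)) ^ β := by
    have h1 := card_le_card himg
    rw [card_product, Int.card_Icc] at h1
    have h2 : ((⌊T⌋₊ : ℤ) + 1 - -(⌊T⌋₊ : ℤ)).toNat = 2 * ⌊T⌋₊ + 1 := by omega
    rw [h2] at h1
    have h3 : (2 * ⌊T⌋₊ + 1) * #(SP n n β) ≤ (2 * ⌊T⌋₊ + 1) * ((n + 1) * (2 * n + 1)) ^ β :=
      Nat.mul_le_mul_left _ (card_SP n n β)
    have h4 : (#(F.image code) : ℝ) ≤ ((2 * ⌊T⌋₊ + 1) * ((n + 1) * (2 * n + 1)) ^ β : ℕ) := by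
      exact_mod_cast h1.trans h3
    refine h4.trans ?_
    push_cast
    have h5 := Nat.floor_le hT0
    gcongr
  -- fibers
  have hfib : ∀ c ∈ F.image code, (#(F.filter fun f => code f = c) : ℝ) ≤ W := by
    intro c hc
    obtain ⟨g, hg, rfl⟩ := mem_image.mp hc
    have h1 : #(F.filter fun f => code f = code g) ≤ #((spt n (mi n g)).pi fun d => S d) := by
      apply card_le_card_of_injOn (fun f => fun d _ => Rd f n d)
      · intro f hf
        rw [mem_coe, mem_filter] at hf
        obtain ⟨hf1, hf2⟩ := hf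
        have hmi : mi n f = mi n g := congrArg Prod.snd hf2
        rw [mem_coe, mem_pi]
        intro d hd
        obtain ⟨h1, h2, h3, h4, h5⟩ := hz f hf1
        rw [← hmi] at hd
        obtain ⟨hd1, hd2⟩ := mem_filter.mp hd
        have h6 : mj f n d ≠ 0 := by
          intro h; apply hd2; rw [mi, h]; rfl
        obtain ⟨h7, h8, h9⟩ := h4 d hd1 h6
        rw [hS, Set.Finite.mem_toFinset]
        exact ⟨h7, h8, h9.trans (hmem f hf1).2.2⟩
      · intro f hf f' hf' hff
        rw [mem_coe, mem_filter] at hf hf'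
        have hmi : mi n f = mi n g := congrArg Prod.snd hf.2
        have hmi' : mi n f' = mi n g := congrArg Prod.snd hf'.2
        have hzz : z f = z f' := (congrArg Prod.fst hf.2).trans (congrArg Prod.fst hf'.2).symm
        have e1 := (hz f hf.1).1
        have e2 := (hz f' hf'.1).1
        rw [e1, e2, hzz]
        congr 1
        refine prod_congr rfl fun d hd => ?_
        have e3 : mj f n d = mj f' n d := by
          have : mi n f d = mi n f' d := by rw [hmi, hmi']
          rw [mi, mi] at this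
          exact_mod_cast this
        by_cases h0 : mj f n d = 0
        · rw [← e3, h0, pow_zero, pow_zero]
        · have hd' : d ∈ spt n (mi n g) := by
            rw [spt, mem_filter]
            refine ⟨hd, ?_⟩
            rw [← hmi, mi]
            exact_mod_cast h0
          have e4 : Rd f n d = Rd f' n d := congrFun (congrFun hff d) hd'
          rw [e3, e4]
    have h2 : (#(F.filter fun f => code f = code g) : ℝ) ≤
        ∏ d ∈ spt n (mi n g), ((famQ d T).ncard : ℝ) := by
      have h3 : (#(F.filter fun f => code f = code g) : ℝ) ≤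
          (#((spt n (mi n g)).pi fun d => S d) : ℝ) := by exact_mod_cast h1
      refine h3.trans (le_of_eq ?_)
      rw [card_pi]
      push_cast
      exact prod_congr rfl fun d _ => by rw [hScard d]
    exact h2.trans (hW _ (hsupp g hg).1 (hsupp g hg).2)
  rw [hncard, card_eq_sum_card_image code F]
  push_cast
  refine (sum_le_sum hfib).trans ?_
  rw [sum_const, nsmul_eq_mul]
  gcongr

end Pool.Agent.Helper79.LC
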