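import Pool.Agent.Helper79.LE.Cntq
import Pool.Agent.Helper79.LD.Num

/-!
The count at a fixed scale, with explicit parameters.
-/

open Finset

namespace Pool.Agent.Helper79.LC

/-- constant in the exponent -/
noncomputable def cc : ℝ := Real.log (400 * 153600 ^ 2) + 40

lemma cc_pos : 0 < cc := by
  rw [cc]
  have : 0 ≤ Real.log (400 * 153600 ^ 2) := Real.log_nonneg (by norm_num)
  linarith

theorem level_detq {n a : ℕ} {ℓ : ℤ} {T L ll ρ U : ℝ} (hT : 1 ≤ T) (hℓ : |(ℓ : ℝ)| ≤ T) (hn : 3 ≤ n) (hL : L = Real.log n)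
    (hll : ll = Real.log L) (hll1 : 1 ≤ ll) (hL1 : 1 ≤ L) (hρ1 : ll ≤ ρ) (hρT : Real.log T ≤ ρ) (hρ2 : ρ ≤ U) (hUL : U ≤ L)
    (c3 : 4 * Real.log T + U + 2 ≤ L)
    (c5 : 64 * Real.exp (2 * U) * T ^ 6 * L ^ 5 ≤ √n)
    (c6 : 153600 * T ^ 10 * L ^ 7 * Real.exp (2 * U) ≤ n)
    (ha6 : 6 ≤ a) (haL : (a : ℝ) ≤ L)
    (F : Finset (Polynomial ℤ)) (hF : ∀ f ∈ F, Sq f ∧ f.natDegree = n ∧ MM f ≤ T ∧
      a * ρ * Multiset.card (out (sc (1 + ρ / n)⁻¹ (rt f).val)) ≤ 2 * n * (1 + 2 * Real.log T))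
    (hFl : ∀ f ∈ F, f.leadingCoeff = ℓ) :
    (#F : ℝ) ≤ Real.exp (3 * (1 + 2 * Real.log T) * cc * n / a) * Real.exp (16 * n / L) := by
  set H : ℝ := 1 + 2 * Real.log T with hH
  have hlogT : 0 ≤ Real.log T := Real.log_nonneg hT
  have hH1 : 1 ≤ H := by linarith
  have hH0 : 0 < H := by linarith
  have hHT : H ≤ 2 * T := by
    have := Real.log_le_sub_one_of_pos (show 0 < T by linarith)
    linarith
  have hn0 : (0 : ℝ) < n := by positivity
  have hn3 : (3 : ℝ) ≤ n := by exact_mod_cast hn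
  have hT0 : 0 < T := by linarith
  have hL0 : 0 < L := by linarith
  have hρ0 : 1 ≤ ρ := hll1.trans hρ1
  have hρpos : 0 < ρ := by linarith
  have ha6' : (6 : ℝ) ≤ a := by exact_mod_cast ha6
  have ha0 : (0 : ℝ) < a := by linarith
  have hU0 : 0 ≤ U := by linarith
  have hρL : ρ ≤ L := hρ2.trans hUL
  have hexpρ : Real.exp ρ ≤ Real.exp (2 * U) := by
    apply Real.exp_le_exp.mpr
    linarith
  have hexpρ2 : Real.exp ρ ^ 2 ≤ Real.exp (2 * U) := by
    rw [← Real.exp_nat_mul]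
    apply Real.exp_le_exp.mpr
    push_cast; linarith
  have hexp1 : 1 ≤ Real.exp ρ := Real.one_le_exp (by linarith)
  have hT4 : 1 ≤ T ^ 6 := one_le_pow₀ hT
  have hT8 : 1 ≤ T ^ 10 := one_le_pow₀ hT
  have hL7 : 1 ≤ L ^ 7 := one_le_pow₀ hL1
  have hexpS : 1 ≤ Real.exp (2 * U) := Real.one_le_exp (by positivity)
  have hsn : √(n : ℝ) * √(n : ℝ) = n := Real.mul_self_sqrt hn0.le
  have hLn : L ^ 2 ≤ √n := by
    refine le_trans ?_ c5
    calc L ^ 2 ≤ L ^ 5 := pow_le_pow_right₀ hL1 (by norm_num)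
      _ = 1 * 1 * 1 * L ^ 5 := by ring
      _ ≤ _ := by gcongr; norm_num
  have hsn1 : 1 ≤ √(n : ℝ) := (one_le_pow₀ hL1).trans hLn
  have hLn' : L ^ 2 ≤ n := hLn.trans (by nlinarith)
  have hρn : ρ ≤ n := by nlinarith
  have hTn : T ≤ n := by
    refine le_trans ?_ c6
    calc T = T ^ 1 := by ring
      _ ≤ T ^ 10 := pow_le_pow_right₀ hT (by norm_num)
      _ = 1 * T ^ 10 * 1 * 1 := by ring
      _ ≤ _ := by gcongr; norm_num
  -- parameters
  set D : ℝ := 153600 * T ^ 10 * L ^ 7 * Real.exp ρ ^ 2 with hD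
  have hD0 : 0 < D := by positivity
  have hD1 : 1 ≤ D := by
    rw [hD]
    calc (1 : ℝ) = 1 * 1 * 1 * 1 ^ 2 := by norm_num
      _ ≤ 153600 * T ^ 10 * L ^ 7 * Real.exp ρ ^ 2 := by gcongr; norm_num
  have hDn : D ≤ n := by
    refine le_trans ?_ c6
    rw [hD]
    gcongr
  set κ : ℝ := 1 / D with hκdef
  have hκ : 0 < κ := by positivity
  have hκ1 : κ ≤ 1 := by
    rw [hκdef, div_le_one hD0]; exact hD1
  set τ : ℝ := 1 / (40 * T ^ 2 * L ^ 3 * Real.exp ρ) with hτdef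
  have hτ0 : 0 < τ := by positivity
  have hτ1 : τ ≤ 1 := by
    rw [hτdef, div_le_one (by positivity)]
    calc (1 : ℝ) = 1 * 1 * 1 * 1 := by norm_num
      _ ≤ 40 * T ^ 2 * L ^ 3 * Real.exp ρ := by
        gcongr
        · norm_num
        · exact one_le_pow₀ hT
        · exact one_le_pow₀ hL1
  set ε : ℝ := ρ / n with hεdef
  have hε : 0 < ε := by positivity
  have hε1 : ε ≤ 1 := by rw [hεdef, div_le_one hn0]; exact hρn
  set s : ℕ := ⌈2 * n * H / (a * ρ)⌉₊ with hs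
  have hs1 : 1 ≤ s := Nat.one_le_ceil_iff.mpr (by positivity)
  have hs2 : 2 * n * H ≤ a * ρ * s := by
    have := Nat.le_ceil (2 * n * H / (a * ρ))
    rw [div_le_iff₀ (by positivity)] at this
    rw [← hs] at this
    linarith
  have haρ : a * ρ ≤ n * H := by
    calc (a : ℝ) * ρ ≤ L * L := by gcongr
      _ = L ^ 2 := by ring
      _ ≤ n := hLn'
      _ = n * 1 := by ring
      _ ≤ n * H := by gcongr
  have hs3 : a * ρ * s ≤ 3 * n * H := by
    have := Nat.ceil_lt_add_one (show 0 ≤ 2 * n * H / (a * ρ) by positivity)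
    rw [← hs] at this
    have h2 : (a : ℝ) * ρ * s ≤ a * ρ * (2 * n * H / (a * ρ) + 1) := by gcongr
    have h3 : (a : ℝ) * ρ * (2 * n * H / (a * ρ) + 1) = 2 * n * H + a * ρ := by field_simp
    linarith
  have hεs : ε * s ≤ T := by
    rw [hεdef, div_mul_eq_mul_div, div_le_iff₀ hn0]
    have h2 : 6 * (ρ * s) ≤ a * (ρ * s) := by gcongr
    have h3 : (n : ℝ) * H ≤ n * (2 * T) := by gcongr
    nlinarith
  set K : ℕ := ⌈n / L ^ 2⌉₊ with hKdef
  have hK1 : 1 ≤ K := Nat.one_le_ceil_iff.mpr (by positivity)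
  have hKge : n / L ^ 2 ≤ (K : ℝ) := Nat.le_ceil _
  have hKle : (K : ℝ) ≤ 2 * n / L ^ 2 := by
    have := Nat.ceil_lt_add_one (show 0 ≤ n / L ^ 2 by positivity)
    rw [← hKdef] at this
    have h2 : 1 ≤ n / L ^ 2 := by rw [le_div_iff₀ (by positivity)]; linarith
    have h3 : 2 * (n : ℝ) / L ^ 2 = n / L ^ 2 + n / L ^ 2 := by ring
    linarith
  set β : ℕ := ⌈√(n : ℝ)⌉₊ with hβdef
  have hβge : √(n : ℝ) ≤ β := Nat.le_ceil _
  have hβle : (β : ℝ) ≤ 2 * √n := by
    have := Nat.ceil_lt_add_one (Real.sqrt_nonneg (n : ℝ))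
    rw [← hβdef] at this
    linarith
  set A : ℕ := ⌈2 / κ⌉₊ with hAdef
  have hA : 2 ≤ κ * A := by
    have := Nat.le_ceil (2 / κ)
    rw [div_le_iff₀ hκ, ← hAdef] at this
    linarith
  set B : ℕ := ⌈7 / (κ * ε)⌉₊ with hBdef
  have hB : 7 ≤ κ * ε * B := by
    have := Nat.le_ceil (7 / (κ * ε))
    rw [div_le_iff₀ (by positivity), ← hBdef] at this
    linarith
  -- square root
  have hE : √((n : ℝ) * (4 * n * L)) ≤ 2 * n * L := by
    rw [Real.sqrt_le_left (by positivity)]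
    have : L ≤ L ^ 2 := by nlinarith
    calc (n : ℝ) * (4 * n * L) = 4 * n ^ 2 * L := by ring
      _ ≤ 4 * n ^ 2 * L ^ 2 := by gcongr
      _ = _ := by ring
  have hY0 : 0 ≤ √((n : ℝ) * (4 * n * L)) := Real.sqrt_nonneg _
  have hRr : 1 ≤ (1 + ρ / n)⁻¹ ^ n * Real.exp ρ := by
    have h1 : (1 + ρ / n) ^ n ≤ Real.exp ρ := by
      calc (1 + ρ / n) ^ n ≤ Real.exp (ρ / n) ^ n := by
            have := Real.add_one_le_exp (ρ / n)
            gcongr
            linarith
        _ = Real.exp ρ := by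
            rw [← Real.exp_nat_mul]; congr 1; field_simp
    rw [inv_pow, inv_mul_eq_div, le_div_iff₀ (by positivity), one_mul]
    exact h1
  have hmain := level_countq (n := n) (ℓ := ℓ) (K := K) (B' := n ^ 2) (β := β) (s := s) (N := n ^ 2)
    (A := A) (B := B) (T := T) (r := (1 + ρ / n)⁻¹) (R := T * Real.exp ρ) (τ := τ) (E := 4 * n * L)
    (κ := κ) (ε := ε) (Λ := 3 * L) hT (by positivity)
    (inv_le_one_of_one_le₀ (by linarith))
    (by
      calc (1 : ℝ) ≤ (1 + ρ / n)⁻¹ ^ n * Real.exp ρ := hRr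
        _ = 1 * ((1 + ρ / n)⁻¹ ^ n * Real.exp ρ) := by ring
        _ ≤ T * ((1 + ρ / n)⁻¹ ^ n * Real.exp ρ) := by gcongr
        _ = _ := by ring)
    (by
      calc |(ℓ : ℝ)| ≤ T := hℓ
        _ = T * 1 := by ring
        _ ≤ T * ((1 + ρ / n)⁻¹ ^ n * Real.exp ρ) := by gcongr
        _ = _ := by ring)
    hτ0.le (by positivity) hs1 hκ hε hε1
    (by
      push_cast
      rw [hεdef]
      calc T ≤ n := hTn
        _ ≤ ρ * n := by nlinarith
        _ = _ := by field_simp)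
    hA hB hεs
    (by
      have h1 : 1 / (κ * ε) ≤ (n : ℝ) ^ 2 := by
        rw [hκdef, hεdef]
        have : 1 / (1 / D * (ρ / n)) = D * n / ρ := by field_simp
        rw [this, div_le_iff₀ hρpos]
        calc D * n ≤ n * n := by gcongr
          _ = n ^ 2 * 1 := by ring
          _ ≤ n ^ 2 * ρ := by gcongr
      have h2 : 1 + 1 / (κ * ε) ≤ (n : ℝ) ^ 3 := by
        have : 1 + (n : ℝ) ^ 2 ≤ n ^ 3 := by nlinarith [sq_nonneg (n : ℝ)]
        linarith
      have h3 := Real.log_le_log (by positivity) h2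
      rw [Real.log_pow, ← hL] at h3
      exact_mod_cast h3)
    (by
      have h1 : τ ^ 2 = 96 * T ^ 6 * L * κ := by
        rw [hτdef, hκdef, hD]
        field_simp
        norm_num
      rw [h1]
      calc 16 * T ^ 5 * (1 + T) * κ * (3 * L) ≤ 16 * T ^ 5 * (T + T) * κ * (3 * L) := by gcongr
        _ = _ := by ring)
    F
    (by
      intro f hf
      obtain ⟨h1, h2, h3, h4⟩ := hF f hf
      refine ⟨h1, h2, h3, ?_⟩
      have h5 : (Multiset.card (out (sc (1 + ρ / n)⁻¹ (rt f).val)) : ℝ) ≤ s := by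
        have h6 : (Multiset.card (out (sc (1 + ρ / n)⁻¹ (rt f).val)) : ℝ) ≤
            2 * n * H / (a * ρ) := by
          rw [le_div_iff₀ (by positivity)]; linarith
        exact h6.trans (Nat.le_ceil _)
      exact_mod_cast h5)
    hFl
    (by
      intro f hf
      obtain ⟨h1, h2, h3, h4⟩ := hF f hf
      refine (AA_scq h1 (by omega) h2 hρpos.le).trans ?_
      have h5 : Real.log (MM f) ≤ Real.log T :=
        Real.log_le_log (by linarith [one_le_MM' h1.ne_zero]) h3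
      rw [← hL]
      have h6 : L + 4 * Real.log (MM f) + ρ + 2 ≤ 2 * L := by linarith
      calc 2 * (n : ℝ) * (L + 4 * Real.log (MM f) + ρ + 2) ≤ 2 * n * (2 * L) := by gcongr
        _ = _ := by ring)
    hK1
    (by
      have hK0 : (0 : ℝ) < K := by exact_mod_cast hK1
      have h1 : 4 * T * τ * √((n : ℝ) * (4 * n * L)) / K ≤ 8 * T * τ * L ^ 3 := by
        rw [div_le_iff₀ hK0]
        calc 4 * T * τ * √((n : ℝ) * (4 * n * L)) ≤ 4 * T * τ * (2 * n * L) := by gcongr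
          _ = 8 * T * τ * L ^ 3 * (n / L ^ 2) := by field_simp; ring
          _ ≤ 8 * T * τ * L ^ 3 * K := by gcongr
      have h2 : 2 * T * τ ≤ 2 * T * τ * L ^ 3 := le_mul_of_one_le_right (by positivity)
        (one_le_pow₀ hL1)
      calc T * Real.exp ρ * (2 * T * τ + 4 * T * τ * √((n : ℝ) * (4 * n * L)) / K)
          ≤ T * Real.exp ρ * (10 * T * τ * L ^ 3) := by
            gcongr
            linarith
        _ = 1 / 4 := by
            rw [hτdef]; field_simp; norm_num)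
    (by
      push_cast
      have h1 : 2 * (n : ℝ) * T * τ + 4 * T * τ * √((n : ℝ) * (4 * n * L)) +
          2 * (T ^ 2 * √((n : ℝ) * (4 * n * L))) ≤ 14 * T ^ 2 * L * n := by
        have e1 : 2 * (n : ℝ) * T * τ ≤ 2 * T ^ 2 * L * n := by
          calc 2 * (n : ℝ) * T * τ ≤ 2 * n * T * 1 := by gcongr
            _ = 2 * (T * 1) * 1 * n := by ring
            _ ≤ 2 * (T * T) * L * n := by gcongr
            _ = _ := by ring
        have e2 : 4 * T * τ * √((n : ℝ) * (4 * n * L)) ≤ 8 * T ^ 2 * L * n := by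
          calc 4 * T * τ * √((n : ℝ) * (4 * n * L)) ≤ 4 * T * 1 * (2 * n * L) := by gcongr
            _ = 8 * (T * 1) * L * n := by ring
            _ ≤ 8 * (T * T) * L * n := by gcongr
            _ = _ := by ring
        have e3 : 2 * (T ^ 2 * √((n : ℝ) * (4 * n * L))) ≤ 4 * T ^ 2 * L * n := by
          calc 2 * (T ^ 2 * √((n : ℝ) * (4 * n * L))) ≤ 2 * (T ^ 2 * (2 * n * L)) := by gcongr
            _ = _ := by ring
        linarith
      calc T * Real.exp ρ * (2 * (n : ℝ) * T * τ + 4 * T * τ * √((n : ℝ) * (4 * n * L)) +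
          2 * (T ^ 2 * √((n : ℝ) * (4 * n * L))))
          ≤ T * Real.exp (2 * U) * (14 * T ^ 2 * L * n) := by gcongr
        _ = (14 * T ^ 3 * L * Real.exp (2 * U)) * n := by ring
        _ ≤ (153600 * T ^ 10 * L ^ 7 * Real.exp (2 * U)) * n := by
            gcongr
            · norm_num
            · norm_num
            · exact le_self_pow₀ hL1 (by norm_num)
        _ ≤ n * n := by gcongr
        _ = (n : ℝ) ^ 2 := by ring)
    (by
      have h1 : (n / L ^ 2 : ℝ) ^ 2 ≤ (K : ℝ) ^ 2 := by gcongr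
      calc 16 * (T * Real.exp ρ) ^ 2 * T ^ 4 * (n * (4 * n * L))
          = 64 * Real.exp ρ ^ 2 * T ^ 6 * (n * (n * L)) := by ring
        _ ≤ 64 * Real.exp (2 * U) * T ^ 6 * (n * (n * L)) := by gcongr
        _ = (64 * Real.exp (2 * U) * T ^ 6 * L ^ 5) * (n / L ^ 2) ^ 2 := by field_simp
        _ ≤ √n * (n / L ^ 2) ^ 2 := by gcongr
        _ ≤ β * K ^ 2 := by gcongr)
  have hκ2 : 1 ≤ 1 / κ := by rw [le_div_iff₀ hκ]; linarith
  have h1 := fac1 (n := n) (a := a) (s := s) (A := A) (B := B) (Nl := Nat.log 2 (n ^ 2) + 1)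
    (T := H) (L := L) (ρ := ρ) (κ := κ) (c := cc) hH1 hn hL1 hρ0 (by omega) haL hκ hκ1 hρn
    (natlog_le hn hL hL1)
    (by
      have := Nat.ceil_lt_add_one (show 0 ≤ 2 / κ by positivity)
      rw [← hAdef] at this
      exact this.le)
    (by
      have := Nat.ceil_lt_add_one (show 0 ≤ 7 / (κ * ε) by positivity)
      rw [← hBdef, hεdef] at this
      exact this.le)
    hs1 hs2 hs3
    (by
      have e1 : 400 * L ^ 2 / κ ^ 2 = (400 * 153600 ^ 2) * (T ^ 20 * L ^ 16 * Real.exp ρ ^ 4) := by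
        rw [hκdef, hD]
        field_simp
      have e2 : L ^ 16 = Real.exp (16 * ll) := by
        rw [hll, show (16 : ℝ) * Real.log L = ((16 : ℕ) : ℝ) * Real.log L by norm_num,
          Real.exp_nat_mul, Real.exp_log hL0]
      have e2' : T ^ 20 = Real.exp (20 * Real.log T) := by
        rw [show (20 : ℝ) * Real.log T = ((20 : ℕ) : ℝ) * Real.log T by norm_num,
          Real.exp_nat_mul, Real.exp_log hT0]
      have e3 : Real.exp ρ ^ 4 = Real.exp (4 * ρ) := by
        rw [← Real.exp_nat_mul]; norm_num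
      have e4 : (400 * 153600 ^ 2 : ℝ) = Real.exp (Real.log (400 * 153600 ^ 2)) := by
        rw [Real.exp_log (by positivity)]
      rw [e1, e2, e2', e3, e4, ← Real.exp_add, ← Real.exp_add, ← Real.exp_add]
      apply Real.exp_le_exp.mpr
      rw [cc]
      have e5 : 0 ≤ Real.log (400 * 153600 ^ 2) := Real.log_nonneg (by norm_num)
      nlinarith)
    (by omega)
    cc_pos.le
  have h2 := fac2 (n := n) (K := K) (β := β) (L := L) hn hL hL1 hKle hβle hLn
  refine hmain.trans ?_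
  gcongr

end Pool.Agent.Helper79.LC
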