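import Pool.Agent.Helper79.LD.Pig
import Pool.Agent.Helper79.LE.Scq

/-!
Choice of a scale with few roots beyond it, logarithmic form.
-/

open Finset

namespace Pool.Agent.Helper79.LC

lemma min_le_log (x : ℝ) (hx : 1 ≤ x) : min (x - 1) 1 ≤ 2 * Real.log x := by
  rcases le_total x 2 with h | h
  · rw [min_eq_left (by linarith)]
    have h1 := Real.one_sub_inv_le_log_of_pos (show 0 < x by linarith)
    have h2 : (x - 1) / 2 ≤ 1 - x⁻¹ := by
      have : 1 - x⁻¹ = (x - 1) / x := by field_simp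
      rw [this]
      apply div_le_div_of_nonneg_left (by linarith) (by linarith) h
    linarith
  · rw [min_eq_right (by linarith)]
    have h1 := Real.log_le_log (by norm_num) h
    have h2 := Real.log_two_gt_d9
    linarith

lemma sum_log_le (S : Finset ℂ) : ∑ a ∈ S, min (max 1 ‖a‖ - 1) 1 ≤
    2 * Real.log (∏ a ∈ S, max 1 ‖a‖) := by
  rw [Real.log_prod, mul_sum]
  · exact sum_le_sum fun a _ => min_le_log _ (le_max_left _ _)
  · intro a _
    positivity

/-- A scale with few roots beyond it. -/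
theorem pigeonq {f : Polynomial ℤ} (hf : Sq f) {n : ℕ} (hn : 1 ≤ n) {T : ℝ} (hfT : MM f ≤ T)
    (a A : ℕ) (hA : 1 ≤ A) (haA : (2 : ℝ) ^ (a + A) ≤ n) : ∃ i ∈ range A, (A : ℝ) * 2 ^ (a + i) *
      Multiset.card (out (sc (1 + 2 ^ (a + i) / n)⁻¹ (rt f).val)) ≤ 2 * n * (1 + 2 * Real.log T) := by
  have hn0 : (0 : ℝ) < n := by exact_mod_cast hn
  have hA0 : (0 : ℝ) < A := by exact_mod_cast hA
  have hMM := one_le_MM' hf.ne_zero
  have h1 : ∑ i ∈ range A, (2 : ℝ) ^ (a + i) *
      Multiset.card (out (sc (1 + 2 ^ (a + i) / n)⁻¹ (rt f).val)) ≤ 2 * n * (2 * Real.log T) := by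
    have h2 : ∀ i ∈ range A, (2 : ℝ) ^ (a + i) *
        Multiset.card (out (sc (1 + 2 ^ (a + i) / n)⁻¹ (rt f).val)) =
        ∑ z ∈ rt f, if (2 : ℝ) ^ (a + i) < n * min (max 1 ‖z‖ - 1) 1 then
          (2 : ℝ) ^ (a + i) else 0 := by
      intro i hi
      rw [mem_range] at hi
      rw [card_out_sc (by positivity) hn, ← sum_filter, sum_const, nsmul_eq_mul, mul_comm]
      congr 2
      apply congrArg Finset.card
      apply filter_congr
      intro z _
      have hp : (0 : ℝ) < 2 ^ (a + i) := by positivity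
      have hpn : (2 : ℝ) ^ (a + i) < n := by
        refine lt_of_lt_of_le ?_ haA
        exact pow_lt_pow_right₀ (by norm_num) (by omega)
      constructor
      · intro h
        rw [mul_min_of_nonneg _ _ hn0.le, lt_min_iff, mul_one]
        exact ⟨h.trans_le (by gcongr; exact le_max_right _ _), hpn⟩
      · intro h
        rw [mul_min_of_nonneg _ _ hn0.le, lt_min_iff] at h
        have h := h.1
        rcases le_total ‖z‖ 1 with h3 | h3
        · rw [max_eq_left h3] at h
          norm_num at h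
          linarith
        · rwa [max_eq_right h3] at h
    rw [sum_congr rfl h2, sum_comm]
    have h3 : ∀ z ∈ rt f, ∑ i ∈ range A, (if (2 : ℝ) ^ (a + i) < n * min (max 1 ‖z‖ - 1) 1 then
        (2 : ℝ) ^ (a + i) else 0) ≤ 2 * (n * min (max 1 ‖z‖ - 1) 1) := by
      intro z _
      apply pow_sum_le
      have := le_max_left 1 ‖z‖
      have : 0 ≤ min (max 1 ‖z‖ - 1) 1 := le_min (by linarith) (by norm_num)
      positivity
    refine (sum_le_sum h3).trans ?_
    have h4 := sum_log_le (rt f)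
    have h5 : Real.log (∏ a ∈ rt f, max 1 ‖a‖) ≤ Real.log T := by
      apply Real.log_le_log
      · linarith [one_le_prod_max (rt f)]
      · exact hf.prod_le.trans hfT
    calc ∑ z ∈ rt f, 2 * (n * min (max 1 ‖z‖ - 1) 1)
        = 2 * n * ∑ z ∈ rt f, min (max 1 ‖z‖ - 1) 1 := by
          rw [mul_sum]
          exact sum_congr rfl fun z _ => by ring
      _ ≤ 2 * n * (2 * Real.log T) := by
          gcongr
          linarith
  have h2 : ∑ i ∈ range A, (2 : ℝ) ^ (a + i) *
      Multiset.card (out (sc (1 + 2 ^ (a + i) / n)⁻¹ (rt f).val)) ≤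
      ∑ i ∈ range A, 2 * n * (1 + 2 * Real.log T) / A := by
    rw [sum_const, card_range, nsmul_eq_mul]
    have : (A : ℝ) * (2 * n * (1 + 2 * Real.log T) / A) = 2 * n * (1 + 2 * Real.log T) := by
      field_simp
    rw [this]
    refine h1.trans ?_
    gcongr
    linarith
  obtain ⟨i, hi, h3⟩ := exists_le_of_sum_le ⟨0, mem_range.mpr (by omega)⟩ h2
  refine ⟨i, hi, ?_⟩
  rw [le_div_iff₀ hA0] at h3
  linarith

end Pool.Agent.Helper79.LC
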