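import Pool.Agent.Helper79.LE.Detq
import Pool.Agent.Helper79.LE.Pigq
import Pool.Agent.Helper79.LE.Asyq

/-!
The number of separable integer polynomials of bounded Mahler measure is subexponential.
-/

open Finset Filter

namespace Pool.Agent.Helper79.LC

/-- Separable integer polynomials of degree `n` and Mahler measure at most `T`. -/
def famQ (n : ℕ) (T : ℝ) : Set (Polynomial ℤ) := {f | Sq f ∧ f.natDegree = n ∧ MM f ≤ T}

lemma finite_famQ (n : ℕ) {T : ℝ} (hT : 0 ≤ T) : (famQ n T).Finite := by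
  refine (finite_MM n T hT).subset ?_
  rintro f ⟨_, h1, h2⟩
  exact ⟨h1.le, h2⟩

theorem subq_large : ∃ C : ℝ, 0 < C ∧ ∀ᶠ n : ℕ in atTop, ∀ T : ℝ, 1 ≤ T →
    Real.log T ≤ 2 * √(Real.log n) →
    ((famQ n T).ncard : ℝ) ≤ Real.exp (C * (1 + Real.log T) * n / Real.log (Real.log n)) := by
  classical
  have hcc := cc_pos
  refine ⟨96 * cc + 20, by positivity, ?_⟩
  filter_upwards [ev_n, eventually_ge_atTop 3, tend_log.eventually (eventually_ge_atTop 1)]
    with n hs hn hL1 T hT hTL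
  obtain ⟨a, b, U, s1, s2, s3, s4, s5, s6, s7, s8, s9, s10, s11⟩ := hs
  set L : ℝ := Real.log n with hL
  set ll : ℝ := Real.log L with hll
  have hlogT : 0 ≤ Real.log T := Real.log_nonneg hT
  have hT0 : 0 < T := by linarith
  have hn0 : (0 : ℝ) < n := by positivity
  have hL0 : 0 < L := by linarith
  have hll0 : 0 < ll := by linarith
  have hllL : ll ≤ L := (Real.log_le_sub_one_of_pos hL0).trans (by linarith)
  have hTexp : ∀ k : ℕ, T ^ k ≤ Real.exp (k * (2 * √L)) := by
    intro k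
    have : T ^ k = Real.exp (k * Real.log T) := by
      rw [Real.exp_nat_mul, Real.exp_log hT0]
    rw [this]
    apply Real.exp_le_exp.mpr
    gcongr
  have c3 : 4 * Real.log T + U + 2 ≤ L := by linarith
  have c5 : 64 * Real.exp (2 * U) * T ^ 6 * L ^ 5 ≤ √(n : ℝ) := by
    refine le_trans ?_ s3
    have h1 := hTexp 6
    have h2 : ((6 : ℕ) : ℝ) * (2 * √L) = 12 * √L := by push_cast; ring
    rw [h2] at h1
    gcongr
  have c6 : 153600 * T ^ 10 * L ^ 7 * Real.exp (2 * U) ≤ n := by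
    refine le_trans ?_ s4
    have h1 := hTexp 10
    have h2 : ((10 : ℕ) : ℝ) * (2 * √L) = 20 * √L := by push_cast; ring
    rw [h2] at h1
    gcongr
  have hLn : L ^ 2 ≤ n := by
    have h1 : L ^ 2 ≤ √(n : ℝ) := by
      refine le_trans ?_ c5
      have : 1 ≤ Real.exp (2 * U) := Real.one_le_exp (by
        have : (0 : ℝ) ≤ 2 ^ (b + a) := by positivity
        linarith)
      have hT4 : 1 ≤ T ^ 6 := one_le_pow₀ hT
      calc L ^ 2 ≤ L ^ 5 := pow_le_pow_right₀ hL1 (by norm_num)
        _ = 1 * 1 * 1 * L ^ 5 := by ring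
        _ ≤ _ := by gcongr; norm_num
    have h2 : 1 ≤ √(n : ℝ) := (one_le_pow₀ hL1).trans h1
    have h3 : √(n : ℝ) * √(n : ℝ) = n := Real.mul_self_sqrt hn0.le
    nlinarith
  have hn' : (2 : ℝ) ^ (b + a) ≤ n := by nlinarith
  set F : Finset (Polynomial ℤ) := (finite_famQ n hT0.le).toFinset with hF
  have hmem : ∀ f ∈ F, Sq f ∧ f.natDegree = n ∧ MM f ≤ T := by
    intro f hf
    rw [hF, Set.Finite.mem_toFinset] at hf
    exact hf
  have hncard : (famQ n T).ncard = #F := by
    rw [hF, Set.ncard_eq_toFinset_card _ (finite_famQ n hT0.le)]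
  set H : ℝ := 1 + 2 * Real.log T with hH
  set G : ℤ × ℕ → Finset (Polynomial ℤ) := fun p => F.filter fun f => f.leadingCoeff = p.1 ∧
      (a : ℝ) * 2 ^ (b + p.2) *
      Multiset.card (out (sc (1 + 2 ^ (b + p.2) / n)⁻¹ (rt f).val)) ≤ 2 * n * H with hG
  set I : Finset (ℤ × ℕ) := (Icc (-(⌊T⌋₊ : ℤ)) ⌊T⌋₊) ×ˢ (range a) with hI
  have hlead : ∀ f ∈ F, |(f.leadingCoeff : ℝ)| ≤ T := by
    intro f hf
    exact (lc_le_MM f).trans (hmem f hf).2.2
  have hfl : ∀ z : ℤ, |(z : ℝ)| ≤ T → z ∈ Icc (-(⌊T⌋₊ : ℤ)) ⌊T⌋₊ := by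
    intro z hz
    rw [mem_Icc, ← abs_le]
    have h1 : (z.natAbs : ℝ) ≤ T := by rw [Nat.cast_natAbs]; push_cast; exact hz
    have h2 := Nat.le_floor h1
    rw [Int.abs_eq_natAbs]
    exact_mod_cast h2
  have hsub : F ⊆ I.biUnion G := by
    intro f hf
    obtain ⟨h1, h2, h3⟩ := hmem f hf
    obtain ⟨i, hi, h4⟩ := pigeonq h1 (by omega : 1 ≤ n) h3 b a (by omega) hn'
    rw [mem_biUnion]
    exact ⟨(f.leadingCoeff, i), mem_product.mpr ⟨hfl _ (hlead f hf), hi⟩,
      mem_filter.mpr ⟨hf, rfl, h4⟩⟩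
  have ha0 : (0 : ℝ) < a := by
    have : 0 < a := by omega
    exact_mod_cast this
  have hlev : ∀ p ∈ I, (#(G p) : ℝ) ≤ Real.exp ((96 * cc + 16) * (1 + Real.log T) * n / ll) := by
    intro p hp
    obtain ⟨hp1, hp2⟩ := mem_product.mp hp
    rw [mem_range] at hp2
    have hℓ : |(p.1 : ℝ)| ≤ T := by
      rw [mem_Icc, ← abs_le] at hp1
      have h1 : ((|p.1| : ℤ) : ℝ) ≤ ((⌊T⌋₊ : ℤ) : ℝ) := by exact_mod_cast hp1
      push_cast at h1
      exact h1.trans (Nat.floor_le hT0.le)
    have hρ0 : 2 * √L ≤ (2 : ℝ) ^ (b + p.2) := by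
      refine s5.trans ?_
      exact pow_le_pow_right₀ (by norm_num) (by omega)
    have hρ2 : (2 : ℝ) ^ (b + p.2) ≤ U := by
      refine le_trans ?_ s6
      exact pow_le_pow_right₀ (by norm_num) (by omega)
    refine (level_detq (a := a) (ℓ := p.1) hT hℓ hn hL hll (by linarith) hL1
      (s10.trans hρ0) (hTL.trans hρ0) hρ2 s1 c3 c5 c6 s7 (s8.trans hllL) (G p)
      (by
        intro f hf
        obtain ⟨h1, h2, h3⟩ := mem_filter.mp hf
        obtain ⟨h4, h5, h6⟩ := hmem f h1
        exact ⟨h4, h5, h6, h3⟩)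
      (by
        intro f hf
        exact (mem_filter.mp hf).2.1)).trans ?_
    rw [← Real.exp_add]
    apply Real.exp_le_exp.mpr
    have hH2 : H ≤ 2 * (1 + Real.log T) := by rw [hH]; linarith
    have h1 : 3 * H * cc * n / a ≤ 96 * cc * (1 + Real.log T) * n / ll := by
      rw [div_le_div_iff₀ ha0 hll0]
      calc 3 * H * cc * n * ll ≤ 3 * (2 * (1 + Real.log T)) * cc * n * (16 * a) := by
            gcongr
        _ = _ := by ring
    have h2 : 16 * (n : ℝ) / L ≤ 16 * (1 + Real.log T) * n / ll := by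
      have : 16 * (n : ℝ) ≤ 16 * (1 + Real.log T) * n := by
        have : 0 ≤ Real.log T * n := by positivity
        linarith
      gcongr
    calc 3 * H * cc * n / a + 16 * n / L
        ≤ 96 * cc * (1 + Real.log T) * n / ll + 16 * (1 + Real.log T) * n / ll := by linarith
      _ = _ := by ring
  have hIcard : (#I : ℝ) ≤ 3 * T * a := by
    have h1 : #I = (2 * ⌊T⌋₊ + 1) * a := by
      rw [hI, card_product, card_range, Int.card_Icc]
      congr 1
      omega
    rw [h1]
    push_cast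
    have h2 := Nat.floor_le hT0.le
    gcongr
    linarith
  have hcard : (#F : ℝ) ≤ 3 * T * a * Real.exp ((96 * cc + 16) * (1 + Real.log T) * n / ll) := by
    have h1 := (card_le_card hsub).trans card_biUnion_le
    have h2 : (#F : ℝ) ≤ ∑ p ∈ I, (#(G p) : ℝ) := by exact_mod_cast h1
    refine h2.trans ((sum_le_sum hlev).trans ?_)
    rw [sum_const, nsmul_eq_mul]
    gcongr
  rw [hncard]
  have hq : 1 ≤ n / ll := by
    rw [le_div_iff₀ hll0]
    have : L ≤ L ^ 2 := by nlinarith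
    linarith
  have h1 : (a : ℝ) ≤ Real.exp (n / ll) := by
    have h2 : (a : ℝ) ≤ n / ll := by
      rw [le_div_iff₀ hll0]
      calc (a : ℝ) * ll ≤ L * L := by gcongr; exact s8.trans hllL
        _ = L ^ 2 := by ring
        _ ≤ n := hLn
    have := Real.add_one_le_exp ((n : ℝ) / ll)
    linarith
  have h2 : 3 * T ≤ Real.exp (3 * (1 + Real.log T) * (n / ll)) := by
    have h3 : 3 * T ≤ Real.exp (2 + Real.log T) := by
      rw [Real.exp_add, Real.exp_log hT0]
      have h4 : (3 : ℝ) ≤ Real.exp 2 := by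
        have := Real.add_one_le_exp (2 : ℝ); linarith
      gcongr
    refine h3.trans (Real.exp_le_exp.mpr ?_)
    calc 2 + Real.log T ≤ 3 * (1 + Real.log T) * 1 := by linarith
      _ ≤ _ := by gcongr
  calc (#F : ℝ) ≤ 3 * T * a * Real.exp ((96 * cc + 16) * (1 + Real.log T) * n / ll) := hcard
    _ ≤ Real.exp (3 * (1 + Real.log T) * (n / ll)) * Real.exp (n / ll) *
        Real.exp ((96 * cc + 16) * (1 + Real.log T) * n / ll) := by gcongr
    _ = Real.exp (3 * (1 + Real.log T) * (n / ll) + n / ll +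
        (96 * cc + 16) * (1 + Real.log T) * n / ll) := by rw [Real.exp_add, Real.exp_add]
    _ ≤ _ := by
        apply Real.exp_le_exp.mpr
        have h3 : n / ll ≤ (1 + Real.log T) * (n / ll) := by
          have : 0 ≤ Real.log T * (n / ll) := by positivity
          linarith
        have h4 : (96 * cc + 16) * (1 + Real.log T) * n / ll =
            (96 * cc + 16) * ((1 + Real.log T) * (n / ll)) := by ring
        have h5 : (96 * cc + 20) * (1 + Real.log T) * n / ll =
            (96 * cc + 20) * ((1 + Real.log T) * (n / ll)) := by ring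
        rw [h4, h5]
        linarith

end Pool.Agent.Helper79.LC
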